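import Pool.Agent.Gab7c_h87.CY1.A0
import Pool.Agent.Gab7c_h87.CY1.A1
import Pool.Agent.Gab7c_h87.CY1.A2
import Pool.Agent.Gab7c_h87.CY1.A3
import Pool.Agent.Gab7c_h87.CY1.T0
import Pool.Agent.Gab7c_h87.CY1.T1
import Pool.Agent.Gab7c_h87.CY1.T2
import Pool.Agent.Gab7c_h87.CY1.T3
import Pool.Agent.Gab7c_h87.CY1.T4
import Pool.Agent.Gab7c_h87.CY1.T5
import Pool.Agent.Gab7c_h87.CY1.T6
import Pool.Agent.Gab7c_h87.CY1.T7
import Pool.Agent.Gab7c_h87.CY1.T8
import Pool.Agent.Gab7c_h87.CY1.T9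
import Pool.Agent.Gab7c_h87.CY1.T10
import Pool.Agent.Gab7c_h87.CY1.T11
import Pool.Agent.Gab7c_h87.CY1.T12
import Pool.Agent.Gab7c_h87.CY1.T13
import Pool.Agent.Gab7c_h87.CY1.T14

/-! Certificate; see `Pool/Agent/Gab7c_h87/Ax.lean`. -/

set_option autoImplicit false
set_option maxRecDepth 100000

namespace Pool.Agent.Gab7c_h87.CY1

open Pool.Agent.Gab7c_h87.Sat

theorem z : Tr.get 0 g 23139 = 0 := by decide +kernel

/-- The problem with these parameters has no solution. -/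
theorem bad {α : Type*} [DecidableEq α] (c : Cx α)
    (hp : c.toPar = ⟨7, 127, 55, [(3, 3), (4, 2), (5, 1), (6, 0)], [12567, 3816], [], [2]⟩) : False := by
  have s0 := axchk_sound c hp _ _ _ _ _ a0
  have s0 := s0.trans (axchk_sound c hp _ _ _ _ _ a1)
  have s0 := s0.trans (axchk_sound c hp _ _ _ _ _ a2)
  have s0 := s0.trans (axchk_sound c hp _ _ _ _ _ a3)
  have s0 := chk_sound' t0 (e := 13313) rfl s0
  have s0 := chk_sound' t1 (e := 14839) rfl s0
  have s0 := chk_sound' t2 (e := 15649) rfl s0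
  have s0 := chk_sound' t3 (e := 16374) rfl s0
  have s0 := chk_sound' t4 (e := 17051) rfl s0
  have s0 := chk_sound' t5 (e := 17611) rfl s0
  have s0 := chk_sound' t6 (e := 18227) rfl s0
  have s0 := chk_sound' t7 (e := 18792) rfl s0
  have s0 := chk_sound' t8 (e := 19396) rfl s0
  have s0 := chk_sound' t9 (e := 19963) rfl s0
  have s0 := chk_sound' t10 (e := 20547) rfl s0
  have s0 := chk_sound' t11 (e := 21176) rfl s0
  have s0 := chk_sound' t12 (e := 21917) rfl s0
  have s0 := chk_sound' t13 (e := 22488) rfl s0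
  have s0 := chk_sound' t14 (e := 23140) rfl s0
  exact s0.false z

end Pool.Agent.Gab7c_h87.CY1
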