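import Pool.Agent.Gab7c_h87.CY1.Dg_00
import Pool.Agent.Gab7c_h87.CY1.Dg_01
import Pool.Agent.Gab7c_h87.CY1.Dg_10
import Pool.Agent.Gab7c_h87.CY1.Dg_11

/-! Certificate; see `Pool/Agent/Gab7c_h87/Ax.lean`. -/

set_option autoImplicit false
set_option maxRecDepth 100000

namespace Pool.Agent.Gab7c_h87.CY1

open Pool.Agent.Gab7c_h87.Sat

/-- the clauses -/
def g : Tr Nat := (.node (.node g_00 g_01) (.node g_10 g_11))

end Pool.Agent.Gab7c_h87.CY1
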