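import Pool.Agent.Gab7c_h87.Ax

/-! Certificate; see `Pool/Agent/Gab7c_h87/Ax.lean`. -/

set_option autoImplicit false
set_option maxRecDepth 100000

namespace Pool.Agent.Gab7c_h87.CY1

open Pool.Agent.Gab7c_h87.Sat

/-- the variables -/
def v : Tr VC := (.node (.node (.node (.node (.node (.node (.node (.node (.node (.node (.node (.leaf ⟨2, 13123, 0, 0⟩)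
(.leaf ⟨0, 13264, 0, 0⟩))
(.node (.leaf ⟨0, 13411, 0, 0⟩)
(.leaf ⟨2, 12691, 0, 0⟩)))
(.node (.node (.leaf ⟨2, 12347, 0, 0⟩)
(.leaf ⟨0, 9755, 0, 0⟩))
(.node (.leaf ⟨0, 7046, 0, 0⟩)
(.leaf ⟨0, 13714, 0, 0⟩))))
(.node (.node (.node (.leaf ⟨0, 6056, 0, 0⟩)
(.leaf ⟨1, 84, 98, 0⟩))
(.node (.leaf ⟨0, 4048, 0, 0⟩)
(.leaf ⟨1, 25, 25, 0⟩)))
(.node (.node (.leaf ⟨0, 1583, 0, 0⟩)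
(.leaf ⟨1, 72, 72, 0⟩))
(.leaf ⟨0, 13637, 0, 0⟩))))
(.node (.node (.node (.node (.leaf ⟨1, 9, 18, 0⟩)
(.leaf ⟨0, 3538, 0, 0⟩))
(.node (.leaf ⟨1, 3, 24, 0⟩)
(.leaf ⟨2, 12571, 0, 0⟩)))
(.node (.node (.leaf ⟨2, 12595, 0, 0⟩)
(.leaf ⟨0, 10779, 0, 0⟩))
(.leaf ⟨2, 2017, 0, 0⟩)))
(.node (.node (.node (.leaf ⟨0, 13339, 0, 0⟩)
(.leaf ⟨2, 8375, 0, 0⟩))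
(.node (.leaf ⟨1, 35, 35, 0⟩)
(.leaf ⟨0, 15696, 0, 0⟩)))
(.node (.node (.leaf ⟨1, 39, 30, 0⟩)
(.leaf ⟨0, 15560, 0, 0⟩))
(.leaf ⟨1, 43, 43, 0⟩)))))
(.node (.node (.node (.node (.node (.leaf ⟨3, 88, 76, 3⟩)
(.leaf ⟨0, 7016, 0, 0⟩))
(.node (.leaf ⟨1, 49, 19, 0⟩)
(.leaf ⟨3, 100, 97, 2⟩)))
(.node (.node (.leaf ⟨0, 2425, 0, 0⟩)
(.leaf ⟨0, 11309, 0, 0⟩))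
(.node (.leaf ⟨1, 22, 21, 0⟩)
(.leaf ⟨0, 2548, 0, 0⟩))))
(.node (.node (.node (.leaf ⟨0, 9275, 0, 0⟩)
(.leaf ⟨1, 100, 98, 0⟩))
(.node (.leaf ⟨0, 13202, 0, 0⟩)
(.leaf ⟨0, 15619, 0, 0⟩)))
(.node (.node (.leaf ⟨0, 2174, 0, 0⟩)
(.leaf ⟨1, 17, 12, 0⟩))
(.leaf ⟨1, 48, 68, 0⟩))))
(.node (.node (.node (.node (.leaf ⟨1, 18, 9, 0⟩)
(.leaf ⟨0, 2734, 0, 0⟩))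
(.node (.leaf ⟨0, 4718, 0, 0⟩)
(.leaf ⟨1, 68, 96, 0⟩)))
(.node (.node (.leaf ⟨0, 11668, 0, 0⟩)
(.leaf ⟨1, 72, 48, 0⟩))
(.leaf ⟨0, 14737, 0, 0⟩)))
(.node (.node (.node (.leaf ⟨0, 14152, 0, 0⟩)
(.leaf ⟨0, 8875, 0, 0⟩))
(.node (.leaf ⟨3, 104, 97, 7⟩)
(.leaf ⟨0, 6081, 0, 0⟩)))
(.node (.node (.leaf ⟨2, 9771, 0, 0⟩)
(.leaf ⟨1, 96, 72, 0⟩))
(.leaf ⟨0, 6632, 0, 0⟩))))))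
(.node (.node (.node (.node (.node (.node (.leaf ⟨0, 1276, 0, 0⟩)
(.leaf ⟨2, 13859, 0, 0⟩))
(.node (.leaf ⟨0, 2300, 0, 0⟩)
(.leaf ⟨0, 13587, 0, 0⟩)))
(.node (.node (.leaf ⟨1, 122, 110, 0⟩)
(.leaf ⟨2, 15367, 0, 0⟩))
(.node (.leaf ⟨2, 15373, 0, 0⟩)
(.leaf ⟨0, 2936, 0, 0⟩))))
(.node (.node (.node (.leaf ⟨0, 15498, 0, 0⟩)
(.leaf ⟨0, 762, 0, 0⟩))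
(.node (.leaf ⟨1, 15, 15, 0⟩)
(.leaf ⟨1, 60, 114, 0⟩)))
(.node (.node (.leaf ⟨0, 13075, 0, 0⟩)
(.leaf ⟨3, 22, 11, 8⟩))
(.leaf ⟨2, 1001, 0, 0⟩))))
(.node (.node (.node (.node (.leaf ⟨0, 3436, 0, 0⟩)
(.leaf ⟨0, 5848, 0, 0⟩))
(.node (.leaf ⟨0, 2283, 0, 0⟩)
(.leaf ⟨0, 1002, 0, 0⟩)))
(.node (.node (.leaf ⟨1, 8, 32, 0⟩)
(.leaf ⟨0, 2111, 0, 0⟩))
(.leaf ⟨0, 886, 0, 0⟩)))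
(.node (.node (.node (.leaf ⟨0, 15379, 0, 0⟩)
(.leaf ⟨0, 5872, 0, 0⟩))
(.node (.leaf ⟨1, 100, 97, 0⟩)
(.leaf ⟨1, 9, 5, 0⟩)))
(.node (.node (.leaf ⟨1, 112, 98, 0⟩)
(.leaf ⟨0, 2279, 0, 0⟩))
(.leaf ⟨0, 12845, 0, 0⟩)))))
(.node (.node (.node (.node (.node (.leaf ⟨2, 367, 0, 0⟩)
(.leaf ⟨3, 84, 84, 4⟩))
(.node (.leaf ⟨0, 5151, 0, 0⟩)
(.leaf ⟨3, 100, 100, 6⟩)))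
(.node (.node (.leaf ⟨0, 506, 0, 0⟩)
(.leaf ⟨0, 8068, 0, 0⟩))
(.node (.leaf ⟨1, 88, 98, 0⟩)
(.leaf ⟨0, 1948, 0, 0⟩))))
(.node (.node (.node (.leaf ⟨0, 13218, 0, 0⟩)
(.leaf ⟨0, 9359, 0, 0⟩))
(.node (.leaf ⟨0, 1906, 0, 0⟩)
(.leaf ⟨0, 3526, 0, 0⟩)))
(.node (.node (.leaf ⟨3, 7, 11, 2⟩)
(.leaf ⟨1, 76, 98, 0⟩))
(.leaf ⟨1, 58, 106, 0⟩))))
(.node (.node (.node (.node (.leaf ⟨0, 2790, 0, 0⟩)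
(.leaf ⟨0, 2794, 0, 0⟩))
(.node (.leaf ⟨1, 104, 97, 0⟩)
(.leaf ⟨1, 47, 62, 0⟩)))
(.node (.node (.leaf ⟨3, 76, 88, 2⟩)
(.leaf ⟨1, 80, 80, 0⟩))
(.leaf ⟨0, 12815, 0, 0⟩)))
(.node (.node (.node (.leaf ⟨0, 379, 0, 0⟩)
(.leaf ⟨2, 12883, 0, 0⟩))
(.node (.leaf ⟨0, 2929, 0, 0⟩)
(.leaf ⟨0, 4034, 0, 0⟩)))
(.node (.node (.leaf ⟨0, 7108, 0, 0⟩)
(.leaf ⟨3, 19, 7, 9⟩))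
(.leaf ⟨2, 15233, 0, 0⟩)))))))
(.node (.node (.node (.node (.node (.node (.node (.leaf ⟨0, 3290, 0, 0⟩)
(.leaf ⟨2, 2171, 0, 0⟩))
(.node (.leaf ⟨1, 96, 80, 0⟩)
(.leaf ⟨3, 100, 100, 2⟩)))
(.node (.node (.leaf ⟨0, 13850, 0, 0⟩)
(.leaf ⟨1, 47, 47, 0⟩))
(.node (.leaf ⟨3, 84, 84, 2⟩)
(.leaf ⟨0, 6604, 0, 0⟩))))
(.node (.node (.node (.leaf ⟨1, 32, 64, 0⟩)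
(.leaf ⟨0, 6199, 0, 0⟩))
(.node (.leaf ⟨3, 52, 100, 4⟩)
(.leaf ⟨3, 104, 44, 9⟩)))
(.node (.node (.leaf ⟨0, 3786, 0, 0⟩)
(.leaf ⟨3, 82, 104, 1⟩))
(.leaf ⟨1, 7, 52, 0⟩))))
(.node (.node (.node (.node (.leaf ⟨2, 13339, 0, 0⟩)
(.leaf ⟨0, 2780, 0, 0⟩))
(.node (.leaf ⟨0, 14673, 0, 0⟩)
(.leaf ⟨3, 76, 104, 2⟩)))
(.node (.node (.leaf ⟨1, 76, 100, 0⟩)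
(.leaf ⟨0, 9771, 0, 0⟩))
(.leaf ⟨0, 3568, 0, 0⟩)))
(.node (.node (.node (.leaf ⟨3, 41, 21, 5⟩)
(.leaf ⟨3, 84, 88, 10⟩))
(.node (.leaf ⟨0, 10019, 0, 0⟩)
(.leaf ⟨1, 5, 18, 0⟩)))
(.node (.node (.leaf ⟨0, 13335, 0, 0⟩)
(.leaf ⟨0, 3048, 0, 0⟩))
(.leaf ⟨3, 19, 7, 1⟩)))))
(.node (.node (.node (.node (.node (.leaf ⟨1, 19, 25, 0⟩)
(.leaf ⟨0, 1964, 0, 0⟩))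
(.node (.leaf ⟨0, 15427, 0, 0⟩)
(.leaf ⟨0, 10795, 0, 0⟩)))
(.node (.node (.leaf ⟨0, 4040, 0, 0⟩)
(.leaf ⟨1, 108, 92, 0⟩))
(.node (.leaf ⟨3, 82, 112, 1⟩)
(.leaf ⟨1, 4, 16, 0⟩))))
(.node (.node (.node (.leaf ⟨0, 8503, 0, 0⟩)
(.leaf ⟨3, 52, 112, 11⟩))
(.node (.leaf ⟨0, 13093, 0, 0⟩)
(.leaf ⟨0, 13764, 0, 0⟩)))
(.node (.node (.leaf ⟨3, 35, 21, 9⟩)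
(.leaf ⟨0, 1772, 0, 0⟩))
(.leaf ⟨0, 14982, 0, 0⟩))))
(.node (.node (.node (.node (.leaf ⟨3, 7, 14, 2⟩)
(.leaf ⟨0, 3014, 0, 0⟩))
(.node (.leaf ⟨3, 11, 7, 9⟩)
(.leaf ⟨0, 13365, 0, 0⟩)))
(.node (.node (.leaf ⟨0, 14483, 0, 0⟩)
(.leaf ⟨0, 13123, 0, 0⟩))
(.leaf ⟨1, 116, 114, 0⟩)))
(.node (.node (.node (.leaf ⟨1, 104, 100, 0⟩)
(.leaf ⟨3, 100, 76, 10⟩))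
(.node (.leaf ⟨3, 112, 97, 5⟩)
(.leaf ⟨0, 8819, 0, 0⟩)))
(.node (.node (.leaf ⟨1, 112, 56, 0⟩)
(.leaf ⟨2, 14471, 0, 0⟩))
(.leaf ⟨1, 9, 10, 0⟩))))))
(.node (.node (.node (.node (.node (.node (.leaf ⟨0, 3692, 0, 0⟩)
(.leaf ⟨0, 5207, 0, 0⟩))
(.node (.leaf ⟨1, 10, 6, 0⟩)
(.leaf ⟨0, 10616, 0, 0⟩)))
(.node (.node (.leaf ⟨1, 72, 96, 0⟩)
(.leaf ⟨0, 15373, 0, 0⟩))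
(.node (.leaf ⟨0, 3258, 0, 0⟩)
(.leaf ⟨1, 46, 106, 0⟩))))
(.node (.node (.node (.leaf ⟨0, 8903, 0, 0⟩)
(.leaf ⟨1, 3, 5, 0⟩))
(.node (.leaf ⟨0, 14471, 0, 0⟩)
(.leaf ⟨1, 55, 47, 0⟩)))
(.node (.node (.leaf ⟨3, 19, 26, 8⟩)
(.leaf ⟨0, 1595, 0, 0⟩))
(.leaf ⟨0, 14981, 0, 0⟩))))
(.node (.node (.node (.node (.leaf ⟨1, 107, 61, 0⟩)
(.leaf ⟨0, 14212, 0, 0⟩))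
(.node (.leaf ⟨0, 3420, 0, 0⟩)
(.leaf ⟨1, 32, 32, 0⟩)))
(.node (.node (.leaf ⟨0, 15172, 0, 0⟩)
(.leaf ⟨0, 15122, 0, 0⟩))
(.leaf ⟨1, 6, 12, 0⟩)))
(.node (.node (.node (.leaf ⟨3, 25, 13, 3⟩)
(.leaf ⟨1, 31, 47, 0⟩))
(.node (.leaf ⟨0, 3544, 0, 0⟩)
(.leaf ⟨3, 88, 76, 9⟩)))
(.node (.node (.leaf ⟨2, 13093, 0, 0⟩)
(.leaf ⟨0, 493, 0, 0⟩))
(.leaf ⟨2, 607, 0, 0⟩)))))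
(.node (.node (.node (.node (.node (.leaf ⟨0, 3940, 0, 0⟩)
(.leaf ⟨3, 19, 11, 8⟩))
(.node (.leaf ⟨0, 1972, 0, 0⟩)
(.leaf ⟨0, 14089, 0, 0⟩)))
(.node (.node (.leaf ⟨0, 3448, 0, 0⟩)
(.leaf ⟨0, 12829, 0, 0⟩))
(.leaf ⟨1, 53, 29, 0⟩)))
(.node (.node (.node (.leaf ⟨1, 107, 59, 0⟩)
(.leaf ⟨0, 1756, 0, 0⟩))
(.node (.leaf ⟨2, 127, 0, 0⟩)
(.leaf ⟨0, 1398, 0, 0⟩)))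
(.node (.node (.leaf ⟨3, 112, 84, 9⟩)
(.leaf ⟨1, 48, 72, 0⟩))
(.leaf ⟨0, 13831, 0, 0⟩))))
(.node (.node (.node (.node (.leaf ⟨0, 12942, 0, 0⟩)
(.leaf ⟨0, 10736, 0, 0⟩))
(.node (.leaf ⟨0, 7576, 0, 0⟩)
(.leaf ⟨1, 62, 118, 0⟩)))
(.node (.node (.leaf ⟨0, 2298, 0, 0⟩)
(.leaf ⟨3, 100, 100, 12⟩))
(.leaf ⟨1, 9, 24, 0⟩)))
(.node (.node (.node (.leaf ⟨0, 14240, 0, 0⟩)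
(.leaf ⟨1, 11, 22, 0⟩))
(.node (.leaf ⟨3, 112, 73, 7⟩)
(.leaf ⟨0, 494, 0, 0⟩)))
(.node (.node (.leaf ⟨1, 20, 72, 0⟩)
(.leaf ⟨0, 5907, 0, 0⟩))
(.leaf ⟨0, 14603, 0, 0⟩))))))))
(.node (.node (.node (.node (.node (.node (.node (.node (.leaf ⟨0, 988, 0, 0⟩)
(.leaf ⟨0, 11783, 0, 0⟩))
(.node (.leaf ⟨3, 88, 98, 8⟩)
(.leaf ⟨1, 86, 116, 0⟩)))
(.node (.node (.leaf ⟨0, 1513, 0, 0⟩)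
(.leaf ⟨1, 116, 108, 0⟩))
(.node (.leaf ⟨1, 20, 20, 0⟩)
(.leaf ⟨1, 74, 98, 0⟩))))
(.node (.node (.node (.leaf ⟨0, 1645, 0, 0⟩)
(.leaf ⟨0, 3494, 0, 0⟩))
(.node (.leaf ⟨0, 14611, 0, 0⟩)
(.leaf ⟨0, 11496, 0, 0⟩)))
(.node (.node (.leaf ⟨0, 1135, 0, 0⟩)
(.leaf ⟨0, 9319, 0, 0⟩))
(.leaf ⟨1, 5, 10, 0⟩))))
(.node (.node (.node (.node (.leaf ⟨1, 27, 27, 0⟩)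
(.leaf ⟨0, 12679, 0, 0⟩))
(.node (.leaf ⟨0, 6388, 0, 0⟩)
(.leaf ⟨2, 14483, 0, 0⟩)))
(.node (.node (.leaf ⟨0, 6112, 0, 0⟩)
(.leaf ⟨0, 15622, 0, 0⟩))
(.leaf ⟨1, 96, 96, 0⟩)))
(.node (.node (.node (.leaf ⟨0, 2018, 0, 0⟩)
(.leaf ⟨1, 124, 117, 0⟩))
(.node (.leaf ⟨1, 27, 58, 0⟩)
(.leaf ⟨1, 4, 2, 0⟩)))
(.node (.node (.leaf ⟨0, 1514, 0, 0⟩)
(.leaf ⟨0, 13395, 0, 0⟩))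
(.leaf ⟨0, 3308, 0, 0⟩)))))
(.node (.node (.node (.node (.node (.leaf ⟨1, 1, 16, 0⟩)
(.leaf ⟨0, 4002, 0, 0⟩))
(.node (.leaf ⟨1, 72, 80, 0⟩)
(.leaf ⟨1, 6, 10, 0⟩)))
(.node (.node (.leaf ⟨0, 5104, 0, 0⟩)
(.leaf ⟨0, 9436, 0, 0⟩))
(.node (.leaf ⟨0, 7570, 0, 0⟩)
(.leaf ⟨1, 7, 28, 0⟩))))
(.node (.node (.node (.leaf ⟨0, 12899, 0, 0⟩)
(.leaf ⟨0, 3181, 0, 0⟩))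
(.node (.leaf ⟨0, 3944, 0, 0⟩)
(.leaf ⟨1, 106, 120, 0⟩)))
(.node (.node (.leaf ⟨0, 15628, 0, 0⟩)
(.leaf ⟨1, 88, 88, 0⟩))
(.leaf ⟨1, 86, 108, 0⟩))))
(.node (.node (.node (.node (.leaf ⟨3, 76, 100, 9⟩)
(.leaf ⟨0, 5616, 0, 0⟩))
(.node (.leaf ⟨0, 13891, 0, 0⟩)
(.leaf ⟨1, 30, 23, 0⟩)))
(.node (.node (.leaf ⟨1, 57, 15, 0⟩)
(.leaf ⟨3, 11, 25, 3⟩))
(.leaf ⟨0, 6052, 0, 0⟩)))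
(.node (.node (.node (.leaf ⟨1, 98, 112, 0⟩)
(.leaf ⟨0, 12379, 0, 0⟩))
(.node (.leaf ⟨2, 13459, 0, 0⟩)
(.leaf ⟨0, 14996, 0, 0⟩)))
(.node (.node (.leaf ⟨0, 2414, 0, 0⟩)
(.leaf ⟨0, 3768, 0, 0⟩))
(.leaf ⟨0, 9331, 0, 0⟩))))))
(.node (.node (.node (.node (.node (.node (.leaf ⟨0, 6084, 0, 0⟩)
(.leaf ⟨0, 10146, 0, 0⟩))
(.node (.leaf ⟨0, 16256, 0, 0⟩)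
(.leaf ⟨1, 84, 76, 0⟩)))
(.node (.node (.leaf ⟨0, 3500, 0, 0⟩)
(.leaf ⟨0, 3924, 0, 0⟩))
(.node (.leaf ⟨1, 60, 108, 0⟩)
(.leaf ⟨0, 15681, 0, 0⟩))))
(.node (.node (.node (.leaf ⟨0, 10767, 0, 0⟩)
(.leaf ⟨0, 10160, 0, 0⟩))
(.node (.leaf ⟨0, 9277, 0, 0⟩)
(.leaf ⟨2, 13587, 0, 0⟩)))
(.node (.node (.leaf ⟨0, 6082, 0, 0⟩)
(.leaf ⟨0, 5368, 0, 0⟩))
(.leaf ⟨0, 1010, 0, 0⟩))))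
(.node (.node (.node (.node (.leaf ⟨0, 4221, 0, 0⟩)
(.leaf ⟨3, 25, 21, 3⟩))
(.node (.leaf ⟨2, 11287, 0, 0⟩)
(.leaf ⟨0, 6776, 0, 0⟩)))
(.node (.node (.leaf ⟨0, 13837, 0, 0⟩)
(.leaf ⟨1, 7, 21, 0⟩))
(.leaf ⟨1, 104, 38, 0⟩)))
(.node (.node (.node (.leaf ⟨3, 19, 11, 10⟩)
(.leaf ⟨0, 13617, 0, 0⟩))
(.node (.leaf ⟨0, 1710, 0, 0⟩)
(.leaf ⟨1, 14, 14, 0⟩)))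
(.node (.node (.leaf ⟨0, 2413, 0, 0⟩)
(.leaf ⟨0, 747, 0, 0⟩))
(.leaf ⟨1, 20, 80, 0⟩)))))
(.node (.node (.node (.node (.node (.leaf ⟨2, 12823, 0, 0⟩)
(.leaf ⟨1, 104, 76, 0⟩))
(.node (.leaf ⟨0, 13341, 0, 0⟩)
(.leaf ⟨0, 13105, 0, 0⟩)))
(.node (.node (.leaf ⟨3, 7, 7, 8⟩)
(.leaf ⟨1, 59, 31, 0⟩))
(.leaf ⟨0, 2681, 0, 0⟩)))
(.node (.node (.node (.leaf ⟨0, 8375, 0, 0⟩)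
(.leaf ⟨0, 13454, 0, 0⟩))
(.node (.leaf ⟨1, 1, 2, 0⟩)
(.leaf ⟨3, 84, 76, 6⟩)))
(.node (.node (.leaf ⟨0, 10152, 0, 0⟩)
(.leaf ⟨1, 36, 72, 0⟩))
(.leaf ⟨0, 10184, 0, 0⟩))))
(.node (.node (.node (.node (.leaf ⟨0, 1528, 0, 0⟩)
(.leaf ⟨0, 7941, 0, 0⟩))
(.node (.leaf ⟨0, 247, 0, 0⟩)
(.leaf ⟨0, 10775, 0, 0⟩)))
(.node (.node (.leaf ⟨1, 18, 3, 0⟩)
(.leaf ⟨3, 104, 84, 9⟩))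
(.leaf ⟨1, 6, 17, 0⟩)))
(.node (.node (.node (.leaf ⟨0, 9303, 0, 0⟩)
(.leaf ⟨1, 68, 80, 0⟩))
(.node (.leaf ⟨0, 1150, 0, 0⟩)
(.leaf ⟨2, 4207, 0, 0⟩)))
(.node (.node (.leaf ⟨0, 2808, 0, 0⟩)
(.leaf ⟨0, 2285, 0, 0⟩))
(.leaf ⟨1, 62, 122, 0⟩)))))))
(.node (.node (.node (.node (.node (.node (.node (.leaf ⟨0, 8539, 0, 0⟩)
(.leaf ⟨0, 7058, 0, 0⟩))
(.node (.leaf ⟨0, 15433, 0, 0⟩)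
(.leaf ⟨1, 39, 45, 0⟩)))
(.node (.node (.leaf ⟨0, 15137, 0, 0⟩)
(.leaf ⟨3, 19, 11, 7⟩))
(.node (.leaf ⟨0, 4064, 0, 0⟩)
(.leaf ⟨0, 6096, 0, 0⟩))))
(.node (.node (.node (.leaf ⟨2, 9263, 0, 0⟩)
(.leaf ⟨0, 14113, 0, 0⟩))
(.node (.leaf ⟨0, 13641, 0, 0⟩)
(.leaf ⟨0, 7620, 0, 0⟩)))
(.node (.node (.leaf ⟨1, 105, 120, 0⟩)
(.leaf ⟨0, 12871, 0, 0⟩))
(.leaf ⟨1, 109, 124, 0⟩))))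
(.node (.node (.node (.node (.leaf ⟨1, 2, 8, 0⟩)
(.leaf ⟨0, 9495, 0, 0⟩))
(.node (.leaf ⟨0, 15621, 0, 0⟩)
(.leaf ⟨0, 6040, 0, 0⟩)))
(.node (.node (.leaf ⟨0, 734, 0, 0⟩)
(.leaf ⟨0, 7888, 0, 0⟩))
(.leaf ⟨0, 635, 0, 0⟩)))
(.node (.node (.node (.leaf ⟨0, 9278, 0, 0⟩)
(.leaf ⟨3, 19, 26, 4⟩))
(.node (.leaf ⟨0, 8555, 0, 0⟩)
(.leaf ⟨1, 67, 19, 0⟩)))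
(.node (.node (.leaf ⟨0, 8315, 0, 0⟩)
(.leaf ⟨0, 1905, 0, 0⟩))
(.leaf ⟨0, 491, 0, 0⟩)))))
(.node (.node (.node (.node (.node (.leaf ⟨2, 14629, 0, 0⟩)
(.leaf ⟨1, 1, 8, 0⟩))
(.node (.leaf ⟨1, 50, 112, 0⟩)
(.leaf ⟨1, 11, 7, 0⟩)))
(.node (.node (.leaf ⟨2, 12827, 0, 0⟩)
(.leaf ⟨0, 7045, 0, 0⟩))
(.node (.leaf ⟨2, 13125, 0, 0⟩)
(.leaf ⟨1, 19, 28, 0⟩))))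
(.node (.node (.node (.leaf ⟨1, 6, 9, 0⟩)
(.leaf ⟨0, 5076, 0, 0⟩))
(.node (.leaf ⟨0, 3988, 0, 0⟩)
(.leaf ⟨2, 12597, 0, 0⟩)))
(.node (.node (.leaf ⟨1, 5, 6, 0⟩)
(.leaf ⟨0, 4318, 0, 0⟩))
(.leaf ⟨0, 4984, 0, 0⟩))))
(.node (.node (.node (.node (.leaf ⟨0, 15296, 0, 0⟩)
(.leaf ⟨2, 1087, 0, 0⟩))
(.node (.leaf ⟨3, 19, 19, 4⟩)
(.leaf ⟨0, 4004, 0, 0⟩)))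
(.node (.node (.leaf ⟨0, 2619, 0, 0⟩)
(.leaf ⟨0, 446, 0, 0⟩))
(.leaf ⟨0, 1598, 0, 0⟩)))
(.node (.node (.node (.leaf ⟨1, 110, 122, 0⟩)
(.leaf ⟨2, 14363, 0, 0⟩))
(.node (.leaf ⟨0, 2924, 0, 0⟩)
(.leaf ⟨0, 3182, 0, 0⟩)))
(.node (.node (.leaf ⟨0, 11335, 0, 0⟩)
(.leaf ⟨2, 13187, 0, 0⟩))
(.leaf ⟨0, 15236, 0, 0⟩))))))
(.node (.node (.node (.node (.node (.node (.leaf ⟨0, 3314, 0, 0⟩)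
(.leaf ⟨0, 10287, 0, 0⟩))
(.node (.leaf ⟨2, 1147, 0, 0⟩)
(.leaf ⟨2, 9743, 0, 0⟩)))
(.node (.node (.leaf ⟨1, 124, 110, 0⟩)
(.leaf ⟨1, 49, 21, 0⟩))
(.node (.leaf ⟨0, 2766, 0, 0⟩)
(.leaf ⟨0, 12619, 0, 0⟩))))
(.node (.node (.node (.leaf ⟨0, 3754, 0, 0⟩)
(.leaf ⟨0, 9751, 0, 0⟩))
(.node (.leaf ⟨0, 890, 0, 0⟩)
(.leaf ⟨1, 40, 80, 0⟩)))
(.node (.node (.leaf ⟨1, 20, 5, 0⟩)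
(.leaf ⟨1, 32, 8, 0⟩))
(.leaf ⟨3, 56, 98, 8⟩))))
(.node (.node (.node (.node (.leaf ⟨0, 12615, 0, 0⟩)
(.leaf ⟨0, 1012, 0, 0⟩))
(.node (.leaf ⟨1, 18, 12, 0⟩)
(.leaf ⟨0, 13716, 0, 0⟩)))
(.node (.node (.leaf ⟨1, 108, 120, 0⟩)
(.leaf ⟨0, 12035, 0, 0⟩))
(.leaf ⟨0, 986, 0, 0⟩)))
(.node (.node (.node (.leaf ⟨0, 14874, 0, 0⟩)
(.leaf ⟨1, 55, 61, 0⟩))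
(.node (.leaf ⟨2, 14411, 0, 0⟩)
(.leaf ⟨1, 104, 44, 0⟩)))
(.node (.node (.leaf ⟨3, 100, 104, 2⟩)
(.leaf ⟨2, 9867, 0, 0⟩))
(.leaf ⟨1, 43, 27, 0⟩)))))
(.node (.node (.node (.node (.node (.leaf ⟨0, 4207, 0, 0⟩)
(.leaf ⟨3, 84, 112, 2⟩))
(.node (.leaf ⟨3, 84, 104, 2⟩)
(.leaf ⟨0, 12065, 0, 0⟩)))
(.node (.node (.leaf ⟨2, 9247, 0, 0⟩)
(.leaf ⟨1, 36, 36, 0⟩))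
(.leaf ⟨1, 16, 16, 0⟩)))
(.node (.node (.node (.leaf ⟨0, 12567, 0, 0⟩)
(.leaf ⟨1, 16, 32, 0⟩))
(.node (.leaf ⟨1, 122, 62, 0⟩)
(.leaf ⟨1, 38, 100, 0⟩)))
(.node (.node (.leaf ⟨1, 112, 81, 0⟩)
(.leaf ⟨1, 8, 64, 0⟩))
(.leaf ⟨0, 3032, 0, 0⟩))))
(.node (.node (.node (.node (.leaf ⟨0, 9464, 0, 0⟩)
(.leaf ⟨0, 5227, 0, 0⟩))
(.node (.leaf ⟨0, 1016, 0, 0⟩)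
(.leaf ⟨0, 2986, 0, 0⟩)))
(.node (.node (.leaf ⟨1, 56, 112, 0⟩)
(.leaf ⟨3, 76, 98, 8⟩))
(.leaf ⟨1, 22, 19, 0⟩)))
(.node (.node (.node (.leaf ⟨1, 80, 96, 0⟩)
(.leaf ⟨3, 67, 19, 6⟩))
(.node (.leaf ⟨0, 14366, 0, 0⟩)
(.leaf ⟨0, 1246, 0, 0⟩)))
(.node (.node (.leaf ⟨1, 5, 5, 0⟩)
(.leaf ⟨0, 13575, 0, 0⟩))
(.leaf ⟨1, 100, 100, 0⟩)))))))))
(.node (.node (.node (.node (.node (.node (.node (.node (.node (.leaf ⟨0, 5895, 0, 0⟩)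
(.leaf ⟨0, 13768, 0, 0⟩))
(.node (.leaf ⟨0, 7112, 0, 0⟩)
(.leaf ⟨0, 2540, 0, 0⟩)))
(.node (.node (.leaf ⟨0, 6175, 0, 0⟩)
(.leaf ⟨2, 12559, 0, 0⟩))
(.node (.leaf ⟨1, 11, 42, 0⟩)
(.leaf ⟨0, 14145, 0, 0⟩))))
(.node (.node (.node (.leaf ⟨1, 7, 14, 0⟩)
(.leaf ⟨0, 1770, 0, 0⟩))
(.node (.leaf ⟨1, 72, 24, 0⟩)
(.leaf ⟨1, 116, 101, 0⟩)))
(.node (.node (.leaf ⟨1, 55, 59, 0⟩)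
(.leaf ⟨0, 2621, 0, 0⟩))
(.leaf ⟨0, 3190, 0, 0⟩))))
(.node (.node (.node (.node (.leaf ⟨0, 14499, 0, 0⟩)
(.leaf ⟨0, 14614, 0, 0⟩))
(.node (.leaf ⟨0, 8128, 0, 0⟩)
(.leaf ⟨0, 2231, 0, 0⟩)))
(.node (.node (.leaf ⟨1, 6, 5, 0⟩)
(.leaf ⟨0, 13843, 0, 0⟩))
(.leaf ⟨1, 15, 39, 0⟩)))
(.node (.node (.node (.leaf ⟨1, 11, 21, 0⟩)
(.leaf ⟨1, 82, 104, 0⟩))
(.node (.leaf ⟨0, 14085, 0, 0⟩)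
(.leaf ⟨2, 14387, 0, 0⟩)))
(.node (.node (.leaf ⟨1, 47, 31, 0⟩)
(.leaf ⟨2, 15875, 0, 0⟩))
(.leaf ⟨1, 118, 118, 0⟩)))))
(.node (.node (.node (.node (.node (.leaf ⟨0, 9295, 0, 0⟩)
(.leaf ⟨1, 9, 6, 0⟩))
(.node (.leaf ⟨1, 60, 102, 0⟩)
(.leaf ⟨2, 15649, 0, 0⟩)))
(.node (.node (.leaf ⟨0, 10331, 0, 0⟩)
(.leaf ⟨0, 14979, 0, 0⟩))
(.node (.leaf ⟨3, 84, 100, 4⟩)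
(.leaf ⟨0, 2669, 0, 0⟩))))
(.node (.node (.node (.leaf ⟨1, 34, 96, 0⟩)
(.leaf ⟨0, 7191, 0, 0⟩))
(.node (.leaf ⟨0, 14413, 0, 0⟩)
(.leaf ⟨0, 8442, 0, 0⟩)))
(.node (.node (.leaf ⟨0, 12839, 0, 0⟩)
(.leaf ⟨1, 80, 24, 0⟩))
(.leaf ⟨3, 76, 112, 3⟩))))
(.node (.node (.node (.node (.leaf ⟨0, 8367, 0, 0⟩)
(.leaf ⟨0, 8859, 0, 0⟩))
(.node (.leaf ⟨0, 14097, 0, 0⟩)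
(.leaf ⟨1, 80, 66, 0⟩)))
(.node (.node (.leaf ⟨3, 84, 100, 6⟩)
(.leaf ⟨0, 2238, 0, 0⟩))
(.leaf ⟨0, 2988, 0, 0⟩)))
(.node (.node (.node (.leaf ⟨0, 16136, 0, 0⟩)
(.leaf ⟨0, 16016, 0, 0⟩))
(.node (.leaf ⟨0, 15634, 0, 0⟩)
(.leaf ⟨0, 10349, 0, 0⟩)))
(.node (.node (.leaf ⟨3, 11, 19, 3⟩)
(.leaf ⟨0, 15107, 0, 0⟩))
(.leaf ⟨0, 11672, 0, 0⟩))))))
(.node (.node (.node (.node (.node (.node (.leaf ⟨2, 11787, 0, 0⟩)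
(.leaf ⟨0, 5074, 0, 0⟩))
(.node (.leaf ⟨0, 10728, 0, 0⟩)
(.leaf ⟨1, 112, 44, 0⟩)))
(.node (.node (.leaf ⟨1, 108, 114, 0⟩)
(.leaf ⟨1, 10, 10, 0⟩))
(.node (.leaf ⟨1, 47, 59, 0⟩)
(.leaf ⟨0, 2008, 0, 0⟩))))
(.node (.node (.node (.leaf ⟨0, 5492, 0, 0⟩)
(.leaf ⟨3, 7, 7, 1⟩))
(.node (.leaf ⟨3, 100, 112, 2⟩)
(.leaf ⟨0, 10891, 0, 0⟩)))
(.node (.node (.leaf ⟨1, 57, 27, 0⟩)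
(.leaf ⟨0, 1996, 0, 0⟩))
(.leaf ⟨2, 14375, 0, 0⟩))))
(.node (.node (.node (.node (.leaf ⟨0, 11684, 0, 0⟩)
(.leaf ⟨0, 1087, 0, 0⟩))
(.node (.leaf ⟨0, 687, 0, 0⟩)
(.leaf ⟨1, 20, 96, 0⟩)))
(.node (.node (.leaf ⟨1, 70, 104, 0⟩)
(.leaf ⟨0, 13970, 0, 0⟩))
(.leaf ⟨0, 7088, 0, 0⟩)))
(.node (.node (.node (.leaf ⟨1, 68, 68, 0⟩)
(.leaf ⟨0, 4844, 0, 0⟩))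
(.node (.leaf ⟨0, 10383, 0, 0⟩)
(.leaf ⟨0, 6088, 0, 0⟩)))
(.node (.node (.leaf ⟨1, 21, 49, 0⟩)
(.leaf ⟨0, 12343, 0, 0⟩))
(.leaf ⟨0, 15264, 0, 0⟩)))))
(.node (.node (.node (.node (.node (.leaf ⟨1, 60, 120, 0⟩)
(.leaf ⟨1, 112, 52, 0⟩))
(.node (.leaf ⟨0, 12875, 0, 0⟩)
(.leaf ⟨1, 116, 116, 0⟩)))
(.node (.node (.leaf ⟨1, 104, 56, 0⟩)
(.leaf ⟨0, 7080, 0, 0⟩))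
(.node (.leaf ⟨2, 13387, 0, 0⟩)
(.leaf ⟨0, 14753, 0, 0⟩))))
(.node (.node (.node (.leaf ⟨0, 1516, 0, 0⟩)
(.leaf ⟨0, 5068, 0, 0⟩))
(.node (.leaf ⟨0, 15240, 0, 0⟩)
(.leaf ⟨0, 2159, 0, 0⟩)))
(.node (.node (.leaf ⟨2, 12349, 0, 0⟩)
(.leaf ⟨3, 35, 11, 8⟩))
(.leaf ⟨0, 12857, 0, 0⟩))))
(.node (.node (.node (.node (.leaf ⟨3, 35, 19, 5⟩)
(.leaf ⟨1, 20, 17, 0⟩))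
(.node (.leaf ⟨1, 35, 13, 0⟩)
(.leaf ⟨0, 1259, 0, 0⟩)))
(.node (.node (.leaf ⟨3, 35, 13, 9⟩)
(.leaf ⟨2, 14351, 0, 0⟩))
(.leaf ⟨0, 5356, 0, 0⟩)))
(.node (.node (.node (.leaf ⟨0, 6520, 0, 0⟩)
(.leaf ⟨0, 3986, 0, 0⟩))
(.node (.leaf ⟨1, 2, 64, 0⟩)
(.leaf ⟨1, 11, 26, 0⟩)))
(.node (.node (.leaf ⟨0, 5976, 0, 0⟩)
(.leaf ⟨1, 41, 21, 0⟩))
(.leaf ⟨0, 14754, 0, 0⟩)))))))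
(.node (.node (.node (.node (.node (.node (.node (.leaf ⟨0, 3556, 0, 0⟩)
(.leaf ⟨1, 35, 7, 0⟩))
(.node (.leaf ⟨2, 14359, 0, 0⟩)
(.leaf ⟨0, 11232, 0, 0⟩)))
(.node (.node (.leaf ⟨0, 11527, 0, 0⟩)
(.leaf ⟨0, 10333, 0, 0⟩))
(.node (.leaf ⟨0, 1401, 0, 0⟩)
(.leaf ⟨0, 3260, 0, 0⟩))))
(.node (.node (.node (.leaf ⟨2, 14855, 0, 0⟩)
(.leaf ⟨0, 5655, 0, 0⟩))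
(.node (.leaf ⟨1, 76, 84, 0⟩)
(.leaf ⟨0, 2426, 0, 0⟩)))
(.node (.node (.leaf ⟨1, 96, 48, 0⟩)
(.leaf ⟨2, 13581, 0, 0⟩))
(.leaf ⟨1, 60, 116, 0⟩))))
(.node (.node (.node (.node (.leaf ⟨0, 508, 0, 0⟩)
(.leaf ⟨1, 18, 18, 0⟩))
(.node (.leaf ⟨0, 12398, 0, 0⟩)
(.leaf ⟨0, 2667, 0, 0⟩)))
(.node (.node (.leaf ⟨0, 16008, 0, 0⟩)
(.leaf ⟨3, 112, 98, 5⟩))
(.leaf ⟨1, 7, 25, 0⟩)))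
(.node (.node (.node (.leaf ⟨0, 1522, 0, 0⟩)
(.leaf ⟨0, 13077, 0, 0⟩))
(.node (.leaf ⟨0, 815, 0, 0⟩)
(.leaf ⟨3, 112, 76, 9⟩)))
(.node (.node (.leaf ⟨0, 3306, 0, 0⟩)
(.leaf ⟨1, 41, 19, 0⟩))
(.leaf ⟨0, 2492, 0, 0⟩)))))
(.node (.node (.node (.node (.node (.leaf ⟨1, 28, 100, 0⟩)
(.leaf ⟨3, 112, 81, 7⟩))
(.node (.leaf ⟨0, 4008, 0, 0⟩)
(.leaf ⟨0, 14661, 0, 0⟩)))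
(.node (.node (.leaf ⟨2, 14883, 0, 0⟩)
(.leaf ⟨0, 761, 0, 0⟩))
(.node (.leaf ⟨2, 2297, 0, 0⟩)
(.leaf ⟨0, 2533, 0, 0⟩))))
(.node (.node (.node (.leaf ⟨0, 15113, 0, 0⟩)
(.leaf ⟨0, 13208, 0, 0⟩))
(.node (.leaf ⟨0, 12431, 0, 0⟩)
(.leaf ⟨1, 1, 1, 0⟩)))
(.node (.node (.leaf ⟨1, 80, 65, 0⟩)
(.leaf ⟨1, 5, 24, 0⟩))
(.leaf ⟨0, 1001, 0, 0⟩))))
(.node (.node (.node (.node (.leaf ⟨1, 97, 104, 0⟩)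
(.leaf ⟨3, 112, 98, 8⟩))
(.node (.leaf ⟨0, 12367, 0, 0⟩)
(.leaf ⟨2, 9991, 0, 0⟩)))
(.node (.node (.leaf ⟨1, 78, 106, 0⟩)
(.leaf ⟨1, 94, 118, 0⟩))
(.leaf ⟨0, 9704, 0, 0⟩)))
(.node (.node (.node (.leaf ⟨0, 14723, 0, 0⟩)
(.leaf ⟨1, 50, 98, 0⟩))
(.node (.leaf ⟨3, 98, 104, 1⟩)
(.leaf ⟨2, 13351, 0, 0⟩)))
(.node (.node (.leaf ⟨3, 104, 52, 9⟩)
(.leaf ⟨0, 1214, 0, 0⟩))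
(.leaf ⟨1, 31, 59, 0⟩))))))
(.node (.node (.node (.node (.node (.node (.leaf ⟨0, 13589, 0, 0⟩)
(.leaf ⟨0, 13363, 0, 0⟩))
(.node (.leaf ⟨0, 11795, 0, 0⟩)
(.leaf ⟨1, 6, 18, 0⟩)))
(.node (.node (.leaf ⟨1, 72, 66, 0⟩)
(.leaf ⟨2, 9319, 0, 0⟩))
(.node (.leaf ⟨0, 12827, 0, 0⟩)
(.leaf ⟨3, 11, 7, 8⟩))))
(.node (.node (.node (.leaf ⟨0, 505, 0, 0⟩)
(.leaf ⟨1, 67, 7, 0⟩))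
(.node (.leaf ⟨2, 13341, 0, 0⟩)
(.leaf ⟨2, 13589, 0, 0⟩)))
(.node (.node (.leaf ⟨0, 3892, 0, 0⟩)
(.leaf ⟨0, 10299, 0, 0⟩))
(.leaf ⟨1, 32, 4, 0⟩))))
(.node (.node (.node (.node (.leaf ⟨3, 7, 7, 2⟩)
(.leaf ⟨2, 14641, 0, 0⟩))
(.node (.leaf ⟨0, 1657, 0, 0⟩)
(.leaf ⟨0, 3764, 0, 0⟩)))
(.node (.node (.leaf ⟨3, 7, 7, 7⟩)
(.leaf ⟨0, 13957, 0, 0⟩))
(.leaf ⟨0, 1780, 0, 0⟩)))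
(.node (.node (.node (.leaf ⟨0, 3127, 0, 0⟩)
(.leaf ⟨0, 1766, 0, 0⟩))
(.node (.leaf ⟨0, 1149, 0, 0⟩)
(.leaf ⟨1, 64, 64, 0⟩)))
(.node (.node (.leaf ⟨1, 4, 1, 0⟩)
(.leaf ⟨2, 13699, 0, 0⟩))
(.leaf ⟨0, 14869, 0, 0⟩)))))
(.node (.node (.node (.node (.node (.leaf ⟨0, 15776, 0, 0⟩)
(.leaf ⟨0, 14994, 0, 0⟩))
(.node (.leaf ⟨3, 7, 11, 8⟩)
(.leaf ⟨0, 10271, 0, 0⟩)))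
(.node (.node (.leaf ⟨0, 3796, 0, 0⟩)
(.leaf ⟨0, 10357, 0, 0⟩))
(.leaf ⟨1, 14, 26, 0⟩)))
(.node (.node (.node (.leaf ⟨0, 14359, 0, 0⟩)
(.leaf ⟨2, 14673, 0, 0⟩))
(.node (.leaf ⟨0, 14855, 0, 0⟩)
(.leaf ⟨0, 10319, 0, 0⟩)))
(.node (.node (.leaf ⟨0, 14216, 0, 0⟩)
(.leaf ⟨0, 1468, 0, 0⟩))
(.leaf ⟨0, 15745, 0, 0⟩))))
(.node (.node (.node (.node (.leaf ⟨1, 8, 4, 0⟩)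
(.leaf ⟨0, 3756, 0, 0⟩))
(.node (.leaf ⟨0, 9095, 0, 0⟩)
(.leaf ⟨1, 3, 10, 0⟩)))
(.node (.node (.leaf ⟨2, 379, 0, 0⟩)
(.leaf ⟨3, 100, 100, 5⟩))
(.leaf ⟨1, 72, 40, 0⟩)))
(.node (.node (.node (.leaf ⟨0, 5588, 0, 0⟩)
(.leaf ⟨1, 67, 11, 0⟩))
(.node (.leaf ⟨0, 3302, 0, 0⟩)
(.leaf ⟨0, 13342, 0, 0⟩)))
(.node (.node (.leaf ⟨0, 6933, 0, 0⟩)
(.leaf ⟨1, 47, 55, 0⟩))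
(.leaf ⟨1, 28, 112, 0⟩))))))))
(.node (.node (.node (.node (.node (.node (.node (.node (.leaf ⟨0, 14411, 0, 0⟩)
(.leaf ⟨2, 2173, 0, 0⟩))
(.node (.leaf ⟨3, 11, 22, 9⟩)
(.leaf ⟨1, 38, 112, 0⟩)))
(.node (.node (.leaf ⟨1, 40, 72, 0⟩)
(.leaf ⟨0, 750, 0, 0⟩))
(.node (.leaf ⟨0, 10458, 0, 0⟩)
(.leaf ⟨0, 2972, 0, 0⟩))))
(.node (.node (.node (.leaf ⟨1, 124, 109, 0⟩)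
(.leaf ⟨3, 11, 13, 9⟩))
(.node (.leaf ⟨1, 16, 2, 0⟩)
(.leaf ⟨2, 10299, 0, 0⟩)))
(.node (.node (.leaf ⟨0, 15374, 0, 0⟩)
(.leaf ⟨0, 14477, 0, 0⟩))
(.leaf ⟨2, 14089, 0, 0⟩))))
(.node (.node (.node (.node (.leaf ⟨0, 8072, 0, 0⟩)
(.leaf ⟨0, 2796, 0, 0⟩))
(.node (.leaf ⟨1, 39, 39, 0⟩)
(.leaf ⟨3, 82, 88, 1⟩)))
(.node (.node (.leaf ⟨0, 2607, 0, 0⟩)
(.leaf ⟨0, 13369, 0, 0⟩))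
(.leaf ⟨1, 26, 11, 0⟩)))
(.node (.node (.node (.leaf ⟨1, 108, 101, 0⟩)
(.leaf ⟨2, 12615, 0, 0⟩))
(.node (.leaf ⟨0, 12883, 0, 0⟩)
(.leaf ⟨1, 84, 104, 0⟩)))
(.node (.node (.leaf ⟨3, 67, 7, 9⟩)
(.leaf ⟨2, 14083, 0, 0⟩))
(.leaf ⟨0, 14993, 0, 0⟩)))))
(.node (.node (.node (.node (.node (.leaf ⟨0, 11015, 0, 0⟩)
(.leaf ⟨3, 84, 100, 9⟩))
(.node (.leaf ⟨0, 6036, 0, 0⟩)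
(.leaf ⟨0, 223, 0, 0⟩)))
(.node (.node (.leaf ⟨0, 13955, 0, 0⟩)
(.leaf ⟨3, 67, 19, 8⟩))
(.node (.leaf ⟨1, 48, 96, 0⟩)
(.leaf ⟨1, 100, 76, 0⟩))))
(.node (.node (.node (.leaf ⟨3, 100, 100, 9⟩)
(.leaf ⟨0, 12391, 0, 0⟩))
(.node (.leaf ⟨0, 11172, 0, 0⟩)
(.leaf ⟨1, 25, 19, 0⟩)))
(.node (.node (.leaf ⟨2, 14859, 0, 0⟩)
(.leaf ⟨0, 3316, 0, 0⟩))
(.leaf ⟨0, 12491, 0, 0⟩))))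
(.node (.node (.node (.node (.leaf ⟨2, 5151, 0, 0⟩)
(.leaf ⟨0, 8847, 0, 0⟩))
(.node (.leaf ⟨0, 15493, 0, 0⟩)
(.leaf ⟨3, 7, 14, 8⟩)))
(.node (.node (.leaf ⟨0, 127, 0, 0⟩)
(.leaf ⟨0, 12335, 0, 0⟩))
(.leaf ⟨0, 9867, 0, 0⟩)))
(.node (.node (.node (.leaf ⟨0, 9712, 0, 0⟩)
(.leaf ⟨2, 2167, 0, 0⟩))
(.node (.leaf ⟨2, 8315, 0, 0⟩)
(.leaf ⟨0, 12583, 0, 0⟩)))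
(.node (.node (.leaf ⟨0, 15878, 0, 0⟩)
(.leaf ⟨1, 80, 72, 0⟩))
(.leaf ⟨3, 19, 11, 4⟩))))))
(.node (.node (.node (.node (.node (.node (.leaf ⟨0, 13389, 0, 0⟩)
(.leaf ⟨0, 4215, 0, 0⟩))
(.node (.leaf ⟨0, 13845, 0, 0⟩)
(.leaf ⟨1, 92, 114, 0⟩)))
(.node (.node (.leaf ⟨2, 14599, 0, 0⟩)
(.leaf ⟨1, 27, 29, 0⟩))
(.node (.leaf ⟨0, 4219, 0, 0⟩)
(.leaf ⟨0, 637, 0, 0⟩))))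
(.node (.node (.node (.leaf ⟨0, 2004, 0, 0⟩)
(.leaf ⟨1, 2, 1, 0⟩))
(.node (.leaf ⟨0, 7024, 0, 0⟩)
(.leaf ⟨2, 2111, 0, 0⟩)))
(.node (.node (.leaf ⟨1, 118, 110, 0⟩)
(.leaf ⟨0, 12571, 0, 0⟩))
(.leaf ⟨0, 3554, 0, 0⟩))))
(.node (.node (.node (.node (.leaf ⟨1, 4, 8, 0⟩)
(.leaf ⟨0, 13190, 0, 0⟩))
(.node (.leaf ⟨0, 15248, 0, 0⟩)
(.leaf ⟨2, 9767, 0, 0⟩)))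
(.node (.node (.leaf ⟨1, 25, 21, 0⟩)
(.leaf ⟨0, 1262, 0, 0⟩))
(.leaf ⟨1, 3, 6, 0⟩)))
(.node (.node (.node (.leaf ⟨0, 8807, 0, 0⟩)
(.leaf ⟨1, 36, 96, 0⟩))
(.node (.leaf ⟨0, 13193, 0, 0⟩)
(.leaf ⟨2, 13383, 0, 0⟩)))
(.node (.node (.leaf ⟨3, 49, 25, 5⟩)
(.leaf ⟨3, 11, 11, 10⟩))
(.leaf ⟨1, 7, 26, 0⟩)))))
(.node (.node (.node (.node (.node (.leaf ⟨1, 3, 18, 0⟩)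
(.leaf ⟨0, 10488, 0, 0⟩))
(.node (.leaf ⟨1, 100, 84, 0⟩)
(.leaf ⟨0, 501, 0, 0⟩)))
(.node (.node (.leaf ⟨1, 22, 11, 0⟩)
(.leaf ⟨0, 8008, 0, 0⟩))
(.leaf ⟨0, 7844, 0, 0⟩)))
(.node (.node (.node (.leaf ⟨0, 2428, 0, 0⟩)
(.leaf ⟨0, 13835, 0, 0⟩))
(.node (.leaf ⟨1, 36, 80, 0⟩)
(.leaf ⟨1, 76, 76, 0⟩)))
(.node (.node (.leaf ⟨0, 375, 0, 0⟩)
(.leaf ⟨0, 1397, 0, 0⟩))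
(.leaf ⟨1, 11, 13, 0⟩))))
(.node (.node (.node (.node (.leaf ⟨0, 12693, 0, 0⟩)
(.leaf ⟨2, 13831, 0, 0⟩))
(.node (.leaf ⟨1, 7, 13, 0⟩)
(.leaf ⟨0, 12381, 0, 0⟩)))
(.node (.node (.leaf ⟨0, 14381, 0, 0⟩)
(.leaf ⟨1, 91, 59, 0⟩))
(.leaf ⟨0, 12597, 0, 0⟩)))
(.node (.node (.node (.leaf ⟨2, 1135, 0, 0⟩)
(.leaf ⟨2, 239, 0, 0⟩))
(.node (.leaf ⟨0, 12589, 0, 0⟩)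
(.leaf ⟨2, 12829, 0, 0⟩)))
(.node (.node (.leaf ⟨0, 4715, 0, 0⟩)
(.leaf ⟨0, 4596, 0, 0⟩))
(.leaf ⟨1, 104, 104, 0⟩)))))))
(.node (.node (.node (.node (.node (.node (.node (.leaf ⟨0, 8032, 0, 0⟩)
(.leaf ⟨0, 5340, 0, 0⟩))
(.node (.leaf ⟨1, 1, 4, 0⟩)
(.leaf ⟨1, 92, 92, 0⟩)))
(.node (.node (.leaf ⟨0, 14086, 0, 0⟩)
(.leaf ⟨1, 6, 6, 0⟩))
(.node (.leaf ⟨1, 39, 23, 0⟩)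
(.leaf ⟨0, 1389, 0, 0⟩))))
(.node (.node (.node (.leaf ⟨1, 12, 72, 0⟩)
(.leaf ⟨0, 13603, 0, 0⟩))
(.node (.leaf ⟨0, 7076, 0, 0⟩)
(.leaf ⟨2, 14113, 0, 0⟩)))
(.node (.node (.leaf ⟨0, 13091, 0, 0⟩)
(.leaf ⟨0, 13849, 0, 0⟩))
(.leaf ⟨0, 14867, 0, 0⟩))))
(.node (.node (.node (.node (.leaf ⟨1, 36, 48, 0⟩)
(.leaf ⟨3, 52, 100, 2⟩))
(.node (.leaf ⟨0, 1722, 0, 0⟩)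
(.leaf ⟨0, 749, 0, 0⟩)))
(.node (.node (.leaf ⟨0, 13873, 0, 0⟩)
(.leaf ⟨1, 8, 8, 0⟩))
(.leaf ⟨0, 15395, 0, 0⟩)))
(.node (.node (.node (.leaf ⟨0, 4334, 0, 0⟩)
(.leaf ⟨0, 1390, 0, 0⟩))
(.node (.leaf ⟨0, 13958, 0, 0⟩)
(.leaf ⟨2, 9511, 0, 0⟩)))
(.node (.node (.leaf ⟨0, 15367, 0, 0⟩)
(.leaf ⟨0, 5752, 0, 0⟩))
(.leaf ⟨0, 14725, 0, 0⟩)))))
(.node (.node (.node (.node (.node (.leaf ⟨0, 638, 0, 0⟩)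
(.leaf ⟨0, 2804, 0, 0⟩))
(.node (.leaf ⟨0, 478, 0, 0⟩)
(.leaf ⟨0, 15553, 0, 0⟩)))
(.node (.node (.leaf ⟨1, 120, 108, 0⟩)
(.leaf ⟨2, 15633, 0, 0⟩))
(.node (.leaf ⟨2, 13891, 0, 0⟩)
(.leaf ⟨0, 14421, 0, 0⟩))))
(.node (.node (.node (.leaf ⟨0, 5580, 0, 0⟩)
(.leaf ⟨1, 9, 17, 0⟩))
(.node (.leaf ⟨3, 11, 19, 11⟩)
(.leaf ⟨0, 11156, 0, 0⟩)))
(.node (.node (.leaf ⟨0, 3540, 0, 0⟩)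
(.leaf ⟨0, 7618, 0, 0⟩))
(.leaf ⟨0, 3506, 0, 0⟩))))
(.node (.node (.node (.node (.leaf ⟨0, 11176, 0, 0⟩)
(.leaf ⟨2, 9271, 0, 0⟩))
(.node (.leaf ⟨2, 14723, 0, 0⟩)
(.leaf ⟨0, 8759, 0, 0⟩)))
(.node (.node (.leaf ⟨1, 19, 26, 0⟩)
(.leaf ⟨1, 2, 2, 0⟩))
(.leaf ⟨3, 67, 11, 8⟩)))
(.node (.node (.node (.leaf ⟨1, 88, 104, 0⟩)
(.leaf ⟨0, 2622, 0, 0⟩))
(.node (.leaf ⟨0, 15649, 0, 0⟩)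
(.leaf ⟨0, 8303, 0, 0⟩)))
(.node (.node (.leaf ⟨2, 10407, 0, 0⟩)
(.leaf ⟨0, 7953, 0, 0⟩))
(.leaf ⟨0, 14210, 0, 0⟩))))))
(.node (.node (.node (.node (.node (.node (.leaf ⟨2, 12037, 0, 0⟩)
(.leaf ⟨0, 9325, 0, 0⟩))
(.node (.leaf ⟨3, 98, 112, 1⟩)
(.leaf ⟨1, 64, 8, 0⟩)))
(.node (.node (.leaf ⟨1, 88, 112, 0⟩)
(.leaf ⟨0, 2002, 0, 0⟩))
(.node (.leaf ⟨1, 12, 80, 0⟩)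
(.leaf ⟨0, 12939, 0, 0⟩))))
(.node (.node (.node (.leaf ⟨0, 15169, 0, 0⟩)
(.leaf ⟨1, 78, 114, 0⟩))
(.node (.leaf ⟨1, 64, 4, 0⟩)
(.leaf ⟨0, 2270, 0, 0⟩)))
(.node (.node (.leaf ⟨0, 14425, 0, 0⟩)
(.leaf ⟨0, 5167, 0, 0⟩))
(.leaf ⟨0, 2932, 0, 0⟩))))
(.node (.node (.node (.node (.leaf ⟨0, 1908, 0, 0⟩)
(.leaf ⟨1, 4, 32, 0⟩))
(.node (.leaf ⟨0, 14379, 0, 0⟩)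
(.leaf ⟨0, 14545, 0, 0⟩)))
(.node (.node (.leaf ⟨1, 8, 2, 0⟩)
(.leaf ⟨0, 16002, 0, 0⟩))
(.leaf ⟨0, 9383, 0, 0⟩)))
(.node (.node (.node (.leaf ⟨0, 13125, 0, 0⟩)
(.leaf ⟨0, 14729, 0, 0⟩))
(.node (.leaf ⟨1, 100, 112, 0⟩)
(.leaf ⟨0, 15633, 0, 0⟩)))
(.node (.node (.leaf ⟨0, 6671, 0, 0⟩)
(.leaf ⟨3, 19, 7, 8⟩))
(.leaf ⟨2, 13451, 0, 0⟩)))))
(.node (.node (.node (.node (.node (.leaf ⟨0, 1147, 0, 0⟩)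
(.leaf ⟨0, 8507, 0, 0⟩))
(.node (.leaf ⟨1, 24, 80, 0⟩)
(.leaf ⟨2, 14365, 0, 0⟩)))
(.node (.node (.leaf ⟨1, 114, 116, 0⟩)
(.leaf ⟨0, 13081, 0, 0⟩))
(.leaf ⟨0, 16004, 0, 0⟩)))
(.node (.node (.node (.leaf ⟨0, 14351, 0, 0⟩)
(.leaf ⟨0, 14390, 0, 0⟩))
(.node (.leaf ⟨3, 52, 104, 2⟩)
(.leaf ⟨1, 80, 48, 0⟩)))
(.node (.node (.leaf ⟨0, 11184, 0, 0⟩)
(.leaf ⟨0, 7624, 0, 0⟩))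
(.leaf ⟨1, 73, 112, 0⟩))))
(.node (.node (.node (.node (.leaf ⟨0, 6679, 0, 0⟩)
(.leaf ⟨0, 575, 0, 0⟩))
(.node (.leaf ⟨0, 13357, 0, 0⟩)
(.leaf ⟨0, 7984, 0, 0⟩)))
(.node (.node (.leaf ⟨0, 3928, 0, 0⟩)
(.leaf ⟨0, 9607, 0, 0⟩))
(.leaf ⟨0, 12403, 0, 0⟩)))
(.node (.node (.node (.leaf ⟨2, 7191, 0, 0⟩)
(.leaf ⟨0, 1500, 0, 0⟩))
(.node (.leaf ⟨1, 120, 120, 0⟩)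
(.leaf ⟨2, 14145, 0, 0⟩)))
(.node (.node (.leaf ⟨1, 96, 68, 0⟩)
(.leaf ⟨2, 12679, 0, 0⟩))
(.leaf ⟨0, 1976, 0, 0⟩))))))))))
(.node (.node (.node (.node (.node (.node (.node (.node (.node (.node (.leaf ⟨0, 8287, 0, 0⟩)
(.leaf ⟨0, 6968, 0, 0⟩))
(.node (.leaf ⟨0, 9390, 0, 0⟩)
(.leaf ⟨0, 2778, 0, 0⟩)))
(.node (.node (.leaf ⟨0, 14475, 0, 0⟩)
(.leaf ⟨0, 12164, 0, 0⟩))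
(.node (.leaf ⟨0, 11279, 0, 0⟩)
(.leaf ⟨0, 10148, 0, 0⟩))))
(.node (.node (.node (.leaf ⟨0, 15382, 0, 0⟩)
(.leaf ⟨0, 6064, 0, 0⟩))
(.node (.leaf ⟨0, 11797, 0, 0⟩)
(.leaf ⟨0, 3810, 0, 0⟩)))
(.node (.node (.leaf ⟨1, 42, 98, 0⟩)
(.leaf ⟨1, 35, 11, 0⟩))
(.leaf ⟨0, 5080, 0, 0⟩))))
(.node (.node (.node (.node (.leaf ⟨0, 15892, 0, 0⟩)
(.leaf ⟨0, 191, 0, 0⟩))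
(.node (.leaf ⟨2, 15109, 0, 0⟩)
(.leaf ⟨2, 14613, 0, 0⟩)))
(.node (.node (.leaf ⟨0, 8811, 0, 0⟩)
(.leaf ⟨0, 764, 0, 0⟩))
(.leaf ⟨0, 15746, 0, 0⟩)))
(.node (.node (.node (.leaf ⟨1, 55, 62, 0⟩)
(.leaf ⟨1, 59, 62, 0⟩))
(.node (.leaf ⟨0, 12192, 0, 0⟩)
(.leaf ⟨0, 10327, 0, 0⟩)))
(.node (.node (.leaf ⟨2, 12629, 0, 0⟩)
(.leaf ⟨0, 8821, 0, 0⟩))
(.leaf ⟨2, 13835, 0, 0⟩)))))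
(.node (.node (.node (.node (.node (.leaf ⟨0, 1261, 0, 0⟩)
(.leaf ⟨3, 76, 112, 2⟩))
(.node (.leaf ⟨1, 100, 52, 0⟩)
(.leaf ⟨1, 49, 13, 0⟩)))
(.node (.node (.leaf ⟨1, 12, 96, 0⟩)
(.leaf ⟨3, 11, 26, 8⟩))
(.node (.leaf ⟨0, 254, 0, 0⟩)
(.leaf ⟨0, 13581, 0, 0⟩))))
(.node (.node (.node (.leaf ⟨1, 78, 102, 0⟩)
(.leaf ⟨2, 14605, 0, 0⟩))
(.node (.leaf ⟨0, 11787, 0, 0⟩)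
(.leaf ⟨2, 13843, 0, 0⟩)))
(.node (.node (.leaf ⟨0, 7064, 0, 0⟩)
(.leaf ⟨2, 14407, 0, 0⟩))
(.leaf ⟨0, 10535, 0, 0⟩))))
(.node (.node (.node (.node (.leaf ⟨0, 3560, 0, 0⟩)
(.leaf ⟨0, 319, 0, 0⟩))
(.node (.leaf ⟨3, 112, 100, 9⟩)
(.leaf ⟨0, 607, 0, 0⟩)))
(.node (.node (.leaf ⟨0, 11811, 0, 0⟩)
(.leaf ⟨1, 92, 108, 0⟩))
(.leaf ⟨3, 11, 11, 8⟩)))
(.node (.node (.node (.leaf ⟨0, 892, 0, 0⟩)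
(.leaf ⟨0, 3938, 0, 0⟩))
(.node (.leaf ⟨2, 13579, 0, 0⟩)
(.leaf ⟨0, 9700, 0, 0⟩)))
(.node (.node (.leaf ⟨0, 14726, 0, 0⟩)
(.leaf ⟨0, 13069, 0, 0⟩))
(.leaf ⟨2, 8759, 0, 0⟩))))))
(.node (.node (.node (.node (.node (.node (.leaf ⟨0, 4342, 0, 0⟩)
(.leaf ⟨0, 2024, 0, 0⟩))
(.node (.leaf ⟨0, 12176, 0, 0⟩)
(.leaf ⟨0, 8495, 0, 0⟩)))
(.node (.node (.leaf ⟨0, 4572, 0, 0⟩)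
(.leaf ⟨0, 7073, 0, 0⟩))
(.node (.leaf ⟨2, 15121, 0, 0⟩)
(.leaf ⟨1, 112, 100, 0⟩))))
(.node (.node (.node (.leaf ⟨0, 1591, 0, 0⟩)
(.leaf ⟨0, 14098, 0, 0⟩))
(.node (.leaf ⟨1, 18, 24, 0⟩)
(.leaf ⟨1, 15, 54, 0⟩)))
(.node (.node (.leaf ⟨2, 12627, 0, 0⟩)
(.leaf ⟨0, 2534, 0, 0⟩))
(.leaf ⟨2, 8503, 0, 0⟩))))
(.node (.node (.node (.node (.leaf ⟨0, 16144, 0, 0⟩)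
(.leaf ⟨2, 8379, 0, 0⟩))
(.node (.leaf ⟨3, 25, 25, 3⟩)
(.leaf ⟨2, 631, 0, 0⟩)))
(.node (.node (.leaf ⟨0, 10301, 0, 0⟩)
(.leaf ⟨1, 15, 29, 0⟩))
(.leaf ⟨0, 15625, 0, 0⟩)))
(.node (.node (.node (.leaf ⟨1, 75, 27, 0⟩)
(.leaf ⟨0, 2682, 0, 0⟩))
(.node (.leaf ⟨0, 13961, 0, 0⟩)
(.leaf ⟨0, 14861, 0, 0⟩)))
(.node (.node (.leaf ⟨0, 13590, 0, 0⟩)
(.leaf ⟨0, 3056, 0, 0⟩))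
(.leaf ⟨3, 11, 21, 9⟩)))))
(.node (.node (.node (.node (.node (.leaf ⟨0, 7832, 0, 0⟩)
(.leaf ⟨2, 12379, 0, 0⟩))
(.node (.leaf ⟨1, 26, 19, 0⟩)
(.leaf ⟨0, 6628, 0, 0⟩)))
(.node (.node (.leaf ⟨1, 9, 12, 0⟩)
(.leaf ⟨2, 12335, 0, 0⟩))
(.node (.leaf ⟨2, 15113, 0, 0⟩)
(.leaf ⟨0, 2537, 0, 0⟩))))
(.node (.node (.node (.leaf ⟨0, 7564, 0, 0⟩)
(.leaf ⟨0, 8795, 0, 0⟩))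
(.node (.leaf ⟨1, 17, 3, 0⟩)
(.leaf ⟨1, 88, 76, 0⟩)))
(.node (.node (.leaf ⟨0, 12350, 0, 0⟩)
(.leaf ⟨0, 743, 0, 0⟩))
(.leaf ⟨0, 12889, 0, 0⟩))))
(.node (.node (.node (.node (.leaf ⟨0, 13447, 0, 0⟩)
(.leaf ⟨1, 122, 124, 0⟩))
(.node (.leaf ⟨0, 3196, 0, 0⟩)
(.leaf ⟨1, 8, 1, 0⟩)))
(.node (.node (.leaf ⟨3, 112, 97, 4⟩)
(.leaf ⟨1, 2, 16, 0⟩))
(.leaf ⟨0, 14629, 0, 0⟩)))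
(.node (.node (.node (.leaf ⟨0, 3980, 0, 0⟩)
(.leaf ⟨0, 14627, 0, 0⟩))
(.node (.leaf ⟨0, 3042, 0, 0⟩)
(.leaf ⟨3, 76, 100, 3⟩)))
(.node (.node (.leaf ⟨3, 11, 19, 8⟩)
(.leaf ⟨0, 7074, 0, 0⟩))
(.leaf ⟨0, 10803, 0, 0⟩)))))))
(.node (.node (.node (.node (.node (.node (.node (.leaf ⟨2, 4219, 0, 0⟩)
(.leaf ⟨2, 9275, 0, 0⟩))
(.node (.leaf ⟨0, 10362, 0, 0⟩)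
(.leaf ⟨0, 3740, 0, 0⟩)))
(.node (.node (.leaf ⟨0, 11142, 0, 0⟩)
(.leaf ⟨3, 104, 98, 3⟩))
(.node (.leaf ⟨0, 9944, 0, 0⟩)
(.leaf ⟨3, 19, 19, 8⟩))))
(.node (.node (.node (.leaf ⟨0, 15881, 0, 0⟩)
(.leaf ⟨0, 6949, 0, 0⟩))
(.node (.leaf ⟨0, 3020, 0, 0⟩)
(.leaf ⟨0, 7183, 0, 0⟩)))
(.node (.node (.leaf ⟨1, 21, 28, 0⟩)
(.leaf ⟨1, 17, 5, 0⟩))
(.leaf ⟨0, 6378, 0, 0⟩))))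
(.node (.node (.node (.node (.leaf ⟨2, 12815, 0, 0⟩)
(.leaf ⟨0, 10208, 0, 0⟩))
(.node (.leaf ⟨2, 14603, 0, 0⟩)
(.leaf ⟨1, 33, 5, 0⟩)))
(.node (.node (.leaf ⟨2, 14659, 0, 0⟩)
(.leaf ⟨0, 3484, 0, 0⟩))
(.leaf ⟨1, 9, 9, 0⟩)))
(.node (.node (.node (.leaf ⟨1, 17, 24, 0⟩)
(.leaf ⟨0, 14738, 0, 0⟩))
(.node (.leaf ⟨0, 382, 0, 0⟩)
(.leaf ⟨0, 2538, 0, 0⟩)))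
(.node (.node (.leaf ⟨0, 1643, 0, 0⟩)
(.leaf ⟨0, 16129, 0, 0⟩))
(.leaf ⟨3, 97, 112, 0⟩)))))
(.node (.node (.node (.node (.node (.leaf ⟨0, 13451, 0, 0⟩)
(.leaf ⟨3, 104, 98, 8⟩))
(.node (.leaf ⟨1, 80, 68, 0⟩)
(.leaf ⟨0, 4588, 0, 0⟩)))
(.node (.node (.leaf ⟨0, 15124, 0, 0⟩)
(.leaf ⟨1, 17, 18, 0⟩))
(.node (.leaf ⟨0, 14870, 0, 0⟩)
(.leaf ⟨0, 7632, 0, 0⟩))))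
(.node (.node (.node (.leaf ⟨0, 14659, 0, 0⟩)
(.leaf ⟨0, 12397, 0, 0⟩))
(.node (.leaf ⟨0, 14986, 0, 0⟩)
(.leaf ⟨1, 124, 118, 0⟩)))
(.node (.node (.leaf ⟨2, 10791, 0, 0⟩)
(.leaf ⟨0, 7880, 0, 0⟩))
(.leaf ⟨0, 7400, 0, 0⟩))))
(.node (.node (.node (.node (.leaf ⟨0, 3194, 0, 0⟩)
(.leaf ⟨0, 9743, 0, 0⟩))
(.node (.leaf ⟨1, 7, 41, 0⟩)
(.leaf ⟨0, 14889, 0, 0⟩)))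
(.node (.node (.leaf ⟨0, 2678, 0, 0⟩)
(.leaf ⟨1, 94, 110, 0⟩))
(.leaf ⟨1, 16, 8, 0⟩)))
(.node (.node (.node (.leaf ⟨0, 7508, 0, 0⟩)
(.leaf ⟨1, 24, 66, 0⟩))
(.node (.leaf ⟨0, 12049, 0, 0⟩)
(.leaf ⟨0, 9192, 0, 0⟩)))
(.node (.node (.leaf ⟨2, 13603, 0, 0⟩)
(.leaf ⟨1, 76, 112, 0⟩))
(.leaf ⟨0, 12573, 0, 0⟩))))))
(.node (.node (.node (.node (.node (.node (.leaf ⟨1, 51, 27, 0⟩)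
(.leaf ⟨1, 10, 18, 0⟩))
(.node (.leaf ⟨1, 39, 43, 0⟩)
(.leaf ⟨1, 5, 12, 0⟩)))
(.node (.node (.leaf ⟨1, 118, 124, 0⟩)
(.leaf ⟨0, 6612, 0, 0⟩))
(.node (.leaf ⟨1, 58, 102, 0⟩)
(.leaf ⟨2, 14419, 0, 0⟩))))
(.node (.node (.node (.leaf ⟨0, 1646, 0, 0⟩)
(.leaf ⟨0, 9452, 0, 0⟩))
(.node (.leaf ⟨0, 10334, 0, 0⟩)
(.leaf ⟨0, 2421, 0, 0⟩)))
(.node (.node (.leaf ⟨0, 8763, 0, 0⟩)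
(.leaf ⟨1, 64, 32, 0⟩))
(.leaf ⟨0, 13137, 0, 0⟩))))
(.node (.node (.node (.node (.leaf ⟨1, 5, 9, 0⟩)
(.leaf ⟨1, 47, 103, 0⟩))
(.node (.leaf ⟨0, 2996, 0, 0⟩)
(.leaf ⟨3, 112, 44, 9⟩)))
(.node (.node (.leaf ⟨1, 55, 31, 0⟩)
(.leaf ⟨1, 7, 49, 0⟩))
(.leaf ⟨0, 8765, 0, 0⟩)))
(.node (.node (.node (.leaf ⟨0, 10295, 0, 0⟩)
(.leaf ⟨2, 10271, 0, 0⟩))
(.node (.leaf ⟨3, 7, 22, 8⟩)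
(.leaf ⟨0, 2223, 0, 0⟩)))
(.node (.node (.leaf ⟨1, 17, 10, 0⟩)
(.leaf ⟨2, 15107, 0, 0⟩))
(.leaf ⟨0, 12455, 0, 0⟩)))))
(.node (.node (.node (.node (.node (.leaf ⟨1, 102, 108, 0⟩)
(.leaf ⟨0, 5096, 0, 0⟩))
(.node (.leaf ⟨0, 10005, 0, 0⟩)
(.leaf ⟨3, 7, 11, 7⟩)))
(.node (.node (.leaf ⟨1, 30, 15, 0⟩)
(.leaf ⟨1, 23, 29, 0⟩))
(.leaf ⟨2, 12445, 0, 0⟩)))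
(.node (.node (.node (.leaf ⟨0, 11356, 0, 0⟩)
(.leaf ⟨0, 2684, 0, 0⟩))
(.node (.leaf ⟨0, 7050, 0, 0⟩)
(.leaf ⟨1, 2, 4, 0⟩)))
(.node (.node (.leaf ⟨1, 72, 68, 0⟩)
(.leaf ⟨2, 15169, 0, 0⟩))
(.leaf ⟨0, 1270, 0, 0⟩))))
(.node (.node (.node (.node (.leaf ⟨0, 12851, 0, 0⟩)
(.leaf ⟨0, 13067, 0, 0⟩))
(.node (.leaf ⟨0, 7876, 0, 0⟩)
(.leaf ⟨2, 15877, 0, 0⟩)))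
(.node (.node (.leaf ⟨0, 2670, 0, 0⟩)
(.leaf ⟨0, 950, 0, 0⟩))
(.leaf ⟨1, 88, 84, 0⟩)))
(.node (.node (.node (.leaf ⟨0, 3816, 0, 0⟩)
(.leaf ⟨0, 15109, 0, 0⟩))
(.node (.leaf ⟨0, 8751, 0, 0⟩)
(.leaf ⟨0, 14859, 0, 0⟩)))
(.node (.node (.leaf ⟨0, 2020, 0, 0⟩)
(.leaf ⟨0, 695, 0, 0⟩))
(.leaf ⟨1, 20, 12, 0⟩))))))))
(.node (.node (.node (.node (.node (.node (.node (.node (.leaf ⟨0, 4016, 0, 0⟩)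
(.leaf ⟨1, 66, 96, 0⟩))
(.node (.leaf ⟨0, 7956, 0, 0⟩)
(.leaf ⟨0, 2171, 0, 0⟩)))
(.node (.node (.leaf ⟨1, 48, 48, 0⟩)
(.leaf ⟨1, 20, 9, 0⟩))
(.node (.leaf ⟨1, 18, 17, 0⟩)
(.leaf ⟨2, 12693, 0, 0⟩))))
(.node (.node (.node (.leaf ⟨0, 13865, 0, 0⟩)
(.leaf ⟨0, 6235, 0, 0⟩))
(.node (.leaf ⟨3, 50, 104, 1⟩)
(.leaf ⟨1, 3, 20, 0⟩)))
(.node (.node (.leaf ⟨2, 13395, 0, 0⟩)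
(.leaf ⟨1, 76, 88, 0⟩))
(.leaf ⟨0, 10426, 0, 0⟩))))
(.node (.node (.node (.node (.leaf ⟨2, 12583, 0, 0⟩)
(.leaf ⟨0, 12621, 0, 0⟩))
(.node (.leaf ⟨0, 11287, 0, 0⟩)
(.leaf ⟨3, 104, 98, 5⟩)))
(.node (.node (.leaf ⟨0, 13579, 0, 0⟩)
(.leaf ⟨1, 68, 72, 0⟩))
(.leaf ⟨0, 10343, 0, 0⟩)))
(.node (.node (.node (.leaf ⟨0, 8983, 0, 0⟩)
(.leaf ⟨1, 112, 84, 0⟩))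
(.node (.leaf ⟨1, 51, 29, 0⟩)
(.leaf ⟨1, 2, 32, 0⟩)))
(.node (.node (.leaf ⟨0, 7648, 0, 0⟩)
(.leaf ⟨3, 7, 11, 1⟩))
(.leaf ⟨1, 102, 102, 0⟩)))))
(.node (.node (.node (.node (.node (.leaf ⟨3, 49, 21, 5⟩)
(.leaf ⟨0, 2286, 0, 0⟩))
(.node (.leaf ⟨2, 8507, 0, 0⟩)
(.leaf ⟨0, 15397, 0, 0⟩)))
(.node (.node (.leaf ⟨1, 108, 108, 0⟩)
(.leaf ⟨0, 3026, 0, 0⟩))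
(.node (.leaf ⟨1, 39, 15, 0⟩)
(.leaf ⟨0, 15497, 0, 0⟩))))
(.node (.node (.node (.leaf ⟨0, 2524, 0, 0⟩)
(.leaf ⟨0, 8080, 0, 0⟩))
(.node (.leaf ⟨0, 7524, 0, 0⟩)
(.leaf ⟨1, 7, 11, 0⟩)))
(.node (.node (.leaf ⟨1, 16, 64, 0⟩)
(.leaf ⟨0, 15760, 0, 0⟩))
(.leaf ⟨0, 12162, 0, 0⟩))))
(.node (.node (.node (.node (.leaf ⟨0, 12443, 0, 0⟩)
(.leaf ⟨0, 15748, 0, 0⟩))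
(.node (.leaf ⟨0, 11539, 0, 0⟩)
(.leaf ⟨1, 56, 100, 0⟩)))
(.node (.node (.leaf ⟨2, 14085, 0, 0⟩)
(.leaf ⟨1, 110, 118, 0⟩))
(.leaf ⟨0, 14599, 0, 0⟩)))
(.node (.node (.node (.leaf ⟨0, 1004, 0, 0⟩)
(.leaf ⟨0, 14363, 0, 0⟩))
(.node (.leaf ⟨1, 7, 7, 0⟩)
(.leaf ⟨0, 15429, 0, 0⟩)))
(.node (.node (.leaf ⟨1, 40, 40, 0⟩)
(.leaf ⟨0, 623, 0, 0⟩))
(.leaf ⟨3, 44, 98, 8⟩))))))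
(.node (.node (.node (.node (.node (.node (.leaf ⟨2, 12875, 0, 0⟩)
(.leaf ⟨1, 50, 100, 0⟩))
(.node (.leaf ⟨0, 1990, 0, 0⟩)
(.leaf ⟨0, 10192, 0, 0⟩)))
(.node (.node (.leaf ⟨0, 1769, 0, 0⟩)
(.leaf ⟨2, 13447, 0, 0⟩))
(.node (.leaf ⟨0, 889, 0, 0⟩)
(.leaf ⟨0, 8317, 0, 0⟩))))
(.node (.node (.node (.leaf ⟨0, 3292, 0, 0⟩)
(.leaf ⟨2, 13077, 0, 0⟩))
(.node (.leaf ⟨0, 12691, 0, 0⟩)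
(.leaf ⟨1, 8, 16, 0⟩)))
(.node (.node (.leaf ⟨0, 9263, 0, 0⟩)
(.leaf ⟨0, 7120, 0, 0⟩))
(.leaf ⟨0, 2793, 0, 0⟩))))
(.node (.node (.node (.node (.leaf ⟨1, 23, 30, 0⟩)
(.leaf ⟨1, 116, 120, 0⟩))
(.node (.leaf ⟨0, 1724, 0, 0⟩)
(.leaf ⟨2, 12319, 0, 0⟩)))
(.node (.node (.leaf ⟨0, 5199, 0, 0⟩)
(.leaf ⟨3, 35, 13, 5⟩))
(.leaf ⟨0, 13761, 0, 0⟩)))
(.node (.node (.node (.leaf ⟨2, 12947, 0, 0⟩)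
(.leaf ⟨2, 7941, 0, 0⟩))
(.node (.leaf ⟨1, 98, 104, 0⟩)
(.leaf ⟨0, 13705, 0, 0⟩)))
(.node (.node (.leaf ⟨0, 8351, 0, 0⟩)
(.leaf ⟨0, 4699, 0, 0⟩))
(.leaf ⟨0, 9271, 0, 0⟩)))))
(.node (.node (.node (.node (.node (.leaf ⟨0, 15905, 0, 0⟩)
(.leaf ⟨2, 14209, 0, 0⟩))
(.node (.leaf ⟨0, 4687, 0, 0⟩)
(.leaf ⟨0, 8423, 0, 0⟩)))
(.node (.node (.leaf ⟨0, 6251, 0, 0⟩)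
(.leaf ⟨1, 19, 7, 0⟩))
(.leaf ⟨1, 82, 88, 0⟩)))
(.node (.node (.node (.leaf ⟨1, 120, 116, 0⟩)
(.leaf ⟨0, 702, 0, 0⟩))
(.node (.leaf ⟨2, 14627, 0, 0⟩)
(.leaf ⟨0, 2267, 0, 0⟩)))
(.node (.node (.leaf ⟨2, 13063, 0, 0⟩)
(.leaf ⟨1, 96, 40, 0⟩))
(.leaf ⟨0, 8430, 0, 0⟩))))
(.node (.node (.node (.node (.leaf ⟨0, 947, 0, 0⟩)
(.leaf ⟨0, 1119, 0, 0⟩))
(.node (.leaf ⟨0, 2518, 0, 0⟩)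
(.leaf ⟨0, 3444, 0, 0⟩)))
(.node (.node (.leaf ⟨0, 7828, 0, 0⟩)
(.leaf ⟨0, 15808, 0, 0⟩))
(.leaf ⟨1, 52, 104, 0⟩)))
(.node (.node (.node (.leaf ⟨0, 14613, 0, 0⟩)
(.leaf ⟨0, 1958, 0, 0⟩))
(.node (.leaf ⟨0, 8783, 0, 0⟩)
(.leaf ⟨0, 12487, 0, 0⟩)))
(.node (.node (.leaf ⟨0, 3788, 0, 0⟩)
(.leaf ⟨1, 19, 35, 0⟩))
(.leaf ⟨0, 10791, 0, 0⟩)))))))
(.node (.node (.node (.node (.node (.node (.node (.leaf ⟨3, 35, 7, 9⟩)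
(.leaf ⟨0, 13593, 0, 0⟩))
(.node (.leaf ⟨0, 2294, 0, 0⟩)
(.leaf ⟨1, 18, 20, 0⟩)))
(.node (.node (.leaf ⟨0, 1654, 0, 0⟩)
(.leaf ⟨1, 102, 116, 0⟩))
(.node (.leaf ⟨1, 35, 25, 0⟩)
(.leaf ⟨0, 3812, 0, 0⟩))))
(.node (.node (.node (.leaf ⟨2, 13955, 0, 0⟩)
(.leaf ⟨1, 46, 102, 0⟩))
(.node (.leaf ⟨1, 13, 13, 0⟩)
(.leaf ⟨0, 1402, 0, 0⟩)))
(.node (.node (.leaf ⟨1, 52, 112, 0⟩)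
(.leaf ⟨2, 12567, 0, 0⟩))
(.leaf ⟨0, 14883, 0, 0⟩))))
(.node (.node (.node (.node (.leaf ⟨1, 112, 76, 0⟩)
(.leaf ⟨2, 13363, 0, 0⟩))
(.node (.leaf ⟨0, 7972, 0, 0⟩)
(.leaf ⟨1, 45, 29, 0⟩)))
(.node (.node (.leaf ⟨1, 35, 21, 0⟩)
(.leaf ⟨3, 49, 13, 5⟩))
(.leaf ⟨1, 17, 17, 0⟩)))
(.node (.node (.node (.leaf ⟨0, 1274, 0, 0⟩)
(.leaf ⟨0, 15568, 0, 0⟩))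
(.node (.leaf ⟨1, 82, 112, 0⟩)
(.leaf ⟨0, 6223, 0, 0⟩)))
(.node (.node (.leaf ⟨2, 8303, 0, 0⟩)
(.leaf ⟨0, 14915, 0, 0⟩))
(.leaf ⟨0, 13327, 0, 0⟩)))))
(.node (.node (.node (.node (.node (.leaf ⟨3, 98, 100, 1⟩)
(.leaf ⟨1, 20, 68, 0⟩))
(.node (.leaf ⟨1, 25, 11, 0⟩)
(.leaf ⟨1, 90, 114, 0⟩)))
(.node (.node (.leaf ⟨2, 2159, 0, 0⟩)
(.leaf ⟨2, 9755, 0, 0⟩))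
(.node (.leaf ⟨3, 7, 7, 9⟩)
(.leaf ⟨0, 13706, 0, 0⟩))))
(.node (.node (.node (.leaf ⟨0, 8016, 0, 0⟩)
(.leaf ⟨3, 37, 13, 5⟩))
(.node (.leaf ⟨0, 2748, 0, 0⟩)
(.leaf ⟨0, 6000, 0, 0⟩)))
(.node (.node (.leaf ⟨0, 2654, 0, 0⟩)
(.leaf ⟨2, 11303, 0, 0⟩))
(.leaf ⟨0, 11216, 0, 0⟩))))
(.node (.node (.node (.node (.leaf ⟨1, 48, 80, 0⟩)
(.leaf ⟨1, 110, 124, 0⟩))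
(.node (.leaf ⟨3, 22, 19, 8⟩)
(.leaf ⟨1, 65, 17, 0⟩)))
(.node (.node (.leaf ⟨0, 2291, 0, 0⟩)
(.leaf ⟨1, 61, 107, 0⟩))
(.leaf ⟨0, 14800, 0, 0⟩)))
(.node (.node (.node (.leaf ⟨0, 6247, 0, 0⟩)
(.leaf ⟨1, 29, 15, 0⟩))
(.node (.leaf ⟨0, 13859, 0, 0⟩)
(.leaf ⟨1, 44, 100, 0⟩)))
(.node (.node (.leaf ⟨1, 6, 3, 0⟩)
(.leaf ⟨0, 6266, 0, 0⟩))
(.leaf ⟨1, 11, 19, 0⟩))))))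
(.node (.node (.node (.node (.node (.node (.leaf ⟨0, 14897, 0, 0⟩)
(.leaf ⟨0, 253, 0, 0⟩))
(.node (.leaf ⟨1, 104, 84, 0⟩)
(.leaf ⟨3, 50, 112, 1⟩)))
(.node (.node (.leaf ⟨3, 25, 11, 3⟩)
(.leaf ⟨0, 2173, 0, 0⟩))
(.node (.leaf ⟨1, 6, 24, 0⟩)
(.leaf ⟨1, 36, 68, 0⟩))))
(.node (.node (.node (.leaf ⟨0, 11696, 0, 0⟩)
(.leaf ⟨1, 47, 61, 0⟩))
(.node (.leaf ⟨1, 33, 17, 0⟩)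
(.leaf ⟨0, 13351, 0, 0⟩)))
(.node (.node (.leaf ⟨3, 100, 98, 8⟩)
(.leaf ⟨0, 11744, 0, 0⟩))
(.leaf ⟨0, 830, 0, 0⟩))))
(.node (.node (.node (.node (.leaf ⟨1, 65, 9, 0⟩)
(.leaf ⟨0, 16001, 0, 0⟩))
(.node (.leaf ⟨1, 44, 98, 0⟩)
(.leaf ⟨0, 9767, 0, 0⟩)))
(.node (.node (.leaf ⟨0, 14885, 0, 0⟩)
(.leaf ⟨0, 3978, 0, 0⟩))
(.leaf ⟨0, 4476, 0, 0⟩)))
(.node (.node (.node (.leaf ⟨2, 9995, 0, 0⟩)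
(.leaf ⟨1, 24, 24, 0⟩))
(.node (.leaf ⟨2, 10295, 0, 0⟩)
(.leaf ⟨0, 8004, 0, 0⟩)))
(.node (.node (.leaf ⟨1, 114, 120, 0⟩)
(.leaf ⟨2, 1149, 0, 0⟩))
(.leaf ⟨0, 2653, 0, 0⟩)))))
(.node (.node (.node (.node (.node (.leaf ⟨3, 50, 100, 1⟩)
(.leaf ⟨1, 56, 88, 0⟩))
(.node (.leaf ⟨2, 6175, 0, 0⟩)
(.leaf ⟨1, 13, 21, 0⟩)))
(.node (.node (.leaf ⟨2, 14379, 0, 0⟩)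
(.leaf ⟨0, 3762, 0, 0⟩))
(.leaf ⟨2, 575, 0, 0⟩)))
(.node (.node (.node (.leaf ⟨0, 13776, 0, 0⟩)
(.leaf ⟨2, 14611, 0, 0⟩))
(.node (.leaf ⟨1, 112, 104, 0⟩)
(.leaf ⟨2, 10287, 0, 0⟩)))
(.node (.node (.leaf ⟨1, 19, 22, 0⟩)
(.leaf ⟨0, 15875, 0, 0⟩))
(.leaf ⟨3, 84, 84, 9⟩))))
(.node (.node (.node (.node (.leaf ⟨1, 24, 96, 0⟩)
(.leaf ⟨1, 46, 114, 0⟩))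
(.node (.leaf ⟨0, 3441, 0, 0⟩)
(.leaf ⟨1, 62, 110, 0⟩)))
(.node (.node (.leaf ⟨0, 5364, 0, 0⟩)
(.leaf ⟨1, 27, 30, 0⟩))
(.leaf ⟨3, 19, 35, 12⟩)))
(.node (.node (.node (.leaf ⟨0, 10602, 0, 0⟩)
(.leaf ⟨0, 956, 0, 0⟩))
(.node (.leaf ⟨0, 1718, 0, 0⟩)
(.leaf ⟨0, 6191, 0, 0⟩)))
(.node (.node (.leaf ⟨1, 25, 13, 0⟩)
(.leaf ⟨0, 13605, 0, 0⟩))
(.leaf ⟨0, 12349, 0, 0⟩)))))))))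
(.node (.node (.node (.node (.node (.node (.node (.node (.node (.leaf ⟨0, 15121, 0, 0⟩)
(.leaf ⟨2, 12939, 0, 0⟩))
(.node (.leaf ⟨3, 7, 22, 2⟩)
(.leaf ⟨2, 7183, 0, 0⟩)))
(.node (.node (.leaf ⟨1, 108, 106, 0⟩)
(.leaf ⟨1, 21, 13, 0⟩))
(.node (.leaf ⟨1, 90, 106, 0⟩)
(.leaf ⟨0, 15937, 0, 0⟩))))
(.node (.node (.node (.leaf ⟨0, 12559, 0, 0⟩)
(.leaf ⟨3, 49, 19, 5⟩))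
(.node (.leaf ⟨0, 13609, 0, 0⟩)
(.leaf ⟨0, 12643, 0, 0⟩)))
(.node (.node (.leaf ⟨0, 13355, 0, 0⟩)
(.leaf ⟨0, 4191, 0, 0⟩))
(.leaf ⟨0, 9307, 0, 0⟩))))
(.node (.node (.node (.node (.leaf ⟨0, 15233, 0, 0⟩)
(.leaf ⟨1, 33, 9, 0⟩))
(.node (.leaf ⟨0, 3824, 0, 0⟩)
(.leaf ⟨1, 37, 21, 0⟩)))
(.node (.node (.leaf ⟨3, 67, 19, 11⟩)
(.leaf ⟨0, 502, 0, 0⟩))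
(.leaf ⟨0, 1993, 0, 0⟩)))
(.node (.node (.node (.leaf ⟨0, 885, 0, 0⟩)
(.leaf ⟨0, 13187, 0, 0⟩))
(.node (.leaf ⟨0, 7588, 0, 0⟩)
(.leaf ⟨0, 7052, 0, 0⟩)))
(.node (.node (.leaf ⟨3, 82, 100, 1⟩)
(.leaf ⟨0, 3278, 0, 0⟩))
(.leaf ⟨2, 13091, 0, 0⟩)))))
(.node (.node (.node (.node (.node (.leaf ⟨2, 13189, 0, 0⟩)
(.leaf ⟨3, 100, 97, 7⟩))
(.node (.leaf ⟨0, 381, 0, 0⟩)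
(.leaf ⟨0, 2922, 0, 0⟩)))
(.node (.node (.leaf ⟨0, 4655, 0, 0⟩)
(.leaf ⟨1, 70, 100, 0⟩))
(.node (.leaf ⟨0, 14387, 0, 0⟩)
(.leaf ⟨0, 14985, 0, 0⟩))))
(.node (.node (.node (.leaf ⟨1, 4, 4, 0⟩)
(.leaf ⟨0, 2615, 0, 0⟩))
(.node (.leaf ⟨0, 13699, 0, 0⟩)
(.leaf ⟨0, 13846, 0, 0⟩)))
(.node (.node (.leaf ⟨1, 88, 100, 0⟩)
(.leaf ⟨0, 13387, 0, 0⟩))
(.leaf ⟨0, 13256, 0, 0⟩))))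
(.node (.node (.node (.node (.leaf ⟨2, 8311, 0, 0⟩)
(.leaf ⟨0, 14785, 0, 0⟩))
(.node (.leaf ⟨0, 16064, 0, 0⟩)
(.leaf ⟨0, 1597, 0, 0⟩)))
(.node (.node (.leaf ⟨0, 1524, 0, 0⟩)
(.leaf ⟨2, 12381, 0, 0⟩))
(.leaf ⟨1, 43, 29, 0⟩)))
(.node (.node (.node (.leaf ⟨1, 48, 36, 0⟩)
(.leaf ⟨0, 4036, 0, 0⟩))
(.node (.leaf ⟨1, 18, 10, 0⟩)
(.leaf ⟨1, 11, 50, 0⟩)))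
(.node (.node (.leaf ⟨1, 112, 97, 0⟩)
(.leaf ⟨0, 11303, 0, 0⟩))
(.leaf ⟨3, 37, 21, 5⟩))))))
(.node (.node (.node (.node (.node (.node (.leaf ⟨1, 3, 12, 0⟩)
(.leaf ⟨0, 14641, 0, 0⟩))
(.node (.leaf ⟨3, 19, 19, 7⟩)
(.leaf ⟨1, 112, 73, 0⟩)))
(.node (.node (.leaf ⟨1, 104, 98, 0⟩)
(.leaf ⟨0, 10302, 0, 0⟩))
(.node (.leaf ⟨0, 4639, 0, 0⟩)
(.leaf ⟨1, 14, 7, 0⟩))))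
(.node (.node (.node (.leaf ⟨3, 84, 84, 6⟩)
(.leaf ⟨1, 5, 20, 0⟩))
(.node (.leaf ⟨0, 8684, 0, 0⟩)
(.leaf ⟨0, 14478, 0, 0⟩)))
(.node (.node (.leaf ⟨1, 15, 30, 0⟩)
(.leaf ⟨0, 9323, 0, 0⟩))
(.leaf ⟨2, 15681, 0, 0⟩))))
(.node (.node (.node (.node (.leaf ⟨1, 68, 66, 0⟩)
(.leaf ⟨1, 36, 66, 0⟩))
(.node (.leaf ⟨1, 3, 9, 0⟩)
(.leaf ⟨1, 19, 21, 0⟩)))
(.node (.node (.leaf ⟨0, 6028, 0, 0⟩)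
(.leaf ⟨0, 12587, 0, 0⟩))
(.leaf ⟨0, 13702, 0, 0⟩)))
(.node (.node (.node (.leaf ⟨0, 7699, 0, 0⟩)
(.leaf ⟨0, 12445, 0, 0⟩))
(.node (.leaf ⟨0, 5175, 0, 0⟩)
(.leaf ⟨0, 3175, 0, 0⟩)))
(.node (.node (.leaf ⟨2, 13605, 0, 0⟩)
(.leaf ⟨0, 14209, 0, 0⟩))
(.leaf ⟨1, 40, 68, 0⟩)))))
(.node (.node (.node (.node (.node (.leaf ⟨1, 41, 11, 0⟩)
(.leaf ⟨1, 9, 3, 0⟩))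
(.node (.leaf ⟨1, 11, 14, 0⟩)
(.leaf ⟨2, 10535, 0, 0⟩)))
(.node (.node (.leaf ⟨2, 14617, 0, 0⟩)
(.leaf ⟨0, 14375, 0, 0⟩))
(.leaf ⟨3, 52, 100, 9⟩)))
(.node (.node (.node (.leaf ⟨1, 21, 21, 0⟩)
(.leaf ⟨1, 32, 16, 0⟩))
(.node (.leaf ⟨0, 15882, 0, 0⟩)
(.leaf ⟨0, 15688, 0, 0⟩)))
(.node (.node (.leaf ⟨0, 3700, 0, 0⟩)
(.leaf ⟨0, 1510, 0, 0⟩))
(.leaf ⟨1, 3, 3, 0⟩))))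
(.node (.node (.node (.node (.leaf ⟨1, 11, 28, 0⟩)
(.leaf ⟨0, 3992, 0, 0⟩))
(.node (.leaf ⟨1, 92, 102, 0⟩)
(.leaf ⟨1, 35, 19, 0⟩)))
(.node (.node (.leaf ⟨3, 52, 112, 2⟩)
(.leaf ⟨2, 15625, 0, 0⟩))
(.leaf ⟨0, 5604, 0, 0⟩)))
(.node (.node (.node (.leaf ⟨0, 13701, 0, 0⟩)
(.leaf ⟨2, 8751, 0, 0⟩))
(.node (.leaf ⟨2, 15371, 0, 0⟩)
(.leaf ⟨3, 35, 19, 8⟩)))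
(.node (.node (.leaf ⟨0, 2994, 0, 0⟩)
(.leaf ⟨3, 11, 28, 3⟩))
(.leaf ⟨0, 3512, 0, 0⟩)))))))
(.node (.node (.node (.node (.node (.node (.node (.leaf ⟨3, 88, 84, 3⟩)
(.leaf ⟨0, 15636, 0, 0⟩))
(.node (.leaf ⟨1, 21, 25, 0⟩)
(.leaf ⟨0, 13459, 0, 0⟩)))
(.node (.node (.leaf ⟨1, 92, 106, 0⟩)
(.leaf ⟨2, 14725, 0, 0⟩))
(.node (.leaf ⟨0, 3532, 0, 0⟩)
(.leaf ⟨0, 2510, 0, 0⟩))))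
(.node (.node (.node (.leaf ⟨0, 878, 0, 0⟩)
(.leaf ⟨0, 1494, 0, 0⟩))
(.node (.leaf ⟨0, 2552, 0, 0⟩)
(.leaf ⟨1, 28, 98, 0⟩)))
(.node (.node (.leaf ⟨1, 76, 104, 0⟩)
(.leaf ⟨1, 43, 51, 0⟩))
(.leaf ⟨0, 10003, 0, 0⟩))))
(.node (.node (.node (.node (.leaf ⟨0, 7904, 0, 0⟩)
(.leaf ⟨0, 12683, 0, 0⟩))
(.node (.leaf ⟨2, 13701, 0, 0⟩)
(.leaf ⟨2, 13355, 0, 0⟩)))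
(.node (.node (.leaf ⟨0, 12935, 0, 0⟩)
(.leaf ⟨2, 637, 0, 0⟩))
(.leaf ⟨2, 15379, 0, 0⟩)))
(.node (.node (.node (.leaf ⟨0, 1143, 0, 0⟩)
(.leaf ⟨0, 1404, 0, 0⟩))
(.node (.leaf ⟨2, 11279, 0, 0⟩)
(.leaf ⟨0, 8791, 0, 0⟩)))
(.node (.node (.leaf ⟨0, 3952, 0, 0⟩)
(.leaf ⟨0, 12319, 0, 0⟩))
(.leaf ⟨0, 1754, 0, 0⟩)))))
(.node (.node (.node (.node (.node (.leaf ⟨2, 15619, 0, 0⟩)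
(.leaf ⟨1, 104, 88, 0⟩))
(.node (.leaf ⟨0, 12877, 0, 0⟩)
(.leaf ⟨0, 10132, 0, 0⟩)))
(.node (.node (.leaf ⟨2, 623, 0, 0⟩)
(.leaf ⟨0, 12347, 0, 0⟩))
(.node (.leaf ⟨0, 13962, 0, 0⟩)
(.leaf ⟨1, 61, 31, 0⟩))))
(.node (.node (.node (.leaf ⟨1, 98, 100, 0⟩)
(.leaf ⟨2, 9383, 0, 0⟩))
(.node (.leaf ⟨1, 17, 20, 0⟩)
(.leaf ⟨2, 13067, 0, 0⟩)))
(.node (.node (.leaf ⟨0, 8379, 0, 0⟩)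
(.leaf ⟨2, 8763, 0, 0⟩))
(.leaf ⟨1, 7, 22, 0⟩))))
(.node (.node (.node (.node (.leaf ⟨0, 1970, 0, 0⟩)
(.leaf ⟨2, 635, 0, 0⟩))
(.node (.leaf ⟨0, 8311, 0, 0⟩)
(.leaf ⟨3, 88, 84, 9⟩)))
(.node (.node (.leaf ⟨3, 7, 19, 1⟩)
(.leaf ⟨0, 9487, 0, 0⟩))
(.leaf ⟨0, 15110, 0, 0⟩)))
(.node (.node (.node (.leaf ⟨2, 1009, 0, 0⟩)
(.leaf ⟨1, 44, 104, 0⟩))
(.node (.leaf ⟨0, 11141, 0, 0⟩)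
(.leaf ⟨0, 6516, 0, 0⟩)))
(.node (.node (.leaf ⟨0, 3018, 0, 0⟩)
(.leaf ⟨1, 23, 39, 0⟩))
(.leaf ⟨3, 52, 100, 5⟩))))))
(.node (.node (.node (.node (.node (.node (.leaf ⟨0, 11208, 0, 0⟩)
(.leaf ⟨2, 13327, 0, 0⟩))
(.node (.leaf ⟨0, 14617, 0, 0⟩)
(.leaf ⟨1, 35, 14, 0⟩)))
(.node (.node (.leaf ⟨1, 104, 52, 0⟩)
(.leaf ⟨1, 19, 19, 0⟩))
(.node (.leaf ⟨1, 5, 3, 0⟩)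
(.leaf ⟨0, 16130, 0, 0⟩))))
(.node (.node (.node (.leaf ⟨2, 2143, 0, 0⟩)
(.leaf ⟨2, 15381, 0, 0⟩))
(.node (.leaf ⟨0, 8255, 0, 0⟩)
(.leaf ⟨1, 52, 100, 0⟩)))
(.node (.node (.leaf ⟨1, 55, 55, 0⟩)
(.leaf ⟨0, 15890, 0, 0⟩))
(.leaf ⟨0, 13969, 0, 0⟩))))
(.node (.node (.node (.node (.leaf ⟨1, 120, 46, 0⟩)
(.leaf ⟨0, 3166, 0, 0⟩))
(.node (.leaf ⟨3, 11, 7, 1⟩)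
(.leaf ⟨0, 1884, 0, 0⟩)))
(.node (.node (.leaf ⟨1, 92, 120, 0⟩)
(.leaf ⟨0, 12037, 0, 0⟩))
(.leaf ⟨0, 6640, 0, 0⟩)))
(.node (.node (.node (.leaf ⟨0, 11315, 0, 0⟩)
(.leaf ⟨0, 7136, 0, 0⟩))
(.node (.leaf ⟨1, 48, 40, 0⟩)
(.leaf ⟨0, 12629, 0, 0⟩)))
(.node (.node (.leaf ⟨0, 2802, 0, 0⟩)
(.leaf ⟨0, 9200, 0, 0⟩))
(.leaf ⟨0, 6872, 0, 0⟩)))))
(.node (.node (.node (.node (.node (.leaf ⟨0, 12459, 0, 0⟩)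
(.leaf ⟨0, 14083, 0, 0⟩))
(.node (.leaf ⟨2, 13575, 0, 0⟩)
(.leaf ⟨1, 94, 122, 0⟩)))
(.node (.node (.leaf ⟨0, 8735, 0, 0⟩)
(.leaf ⟨0, 13201, 0, 0⟩))
(.leaf ⟨0, 7820, 0, 0⟩)))
(.node (.node (.node (.leaf ⟨0, 8399, 0, 0⟩)
(.leaf ⟨0, 251, 0, 0⟩))
(.node (.leaf ⟨0, 1784, 0, 0⟩)
(.leaf ⟨0, 12823, 0, 0⟩)))
(.node (.node (.leaf ⟨0, 14389, 0, 0⟩)
(.leaf ⟨2, 12843, 0, 0⟩))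
(.leaf ⟨1, 84, 84, 0⟩))))
(.node (.node (.node (.node (.leaf ⟨1, 0, 0, 0⟩)
(.leaf ⟨1, 118, 122, 0⟩))
(.node (.leaf ⟨3, 7, 19, 7⟩)
(.leaf ⟨1, 37, 13, 0⟩)))
(.node (.node (.leaf ⟨0, 1255, 0, 0⟩)
(.leaf ⟨3, 25, 19, 3⟩))
(.leaf ⟨1, 84, 88, 0⟩)))
(.node (.node (.node (.leaf ⟨0, 2167, 0, 0⟩)
(.leaf ⟨3, 112, 97, 7⟩))
(.node (.leaf ⟨1, 16, 4, 0⟩)
(.leaf ⟨0, 2774, 0, 0⟩)))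
(.node (.node (.leaf ⟨3, 7, 19, 8⟩)
(.leaf ⟨1, 40, 96, 0⟩))
(.leaf ⟨2, 15745, 0, 0⟩))))))))
(.node (.node (.node (.node (.node (.node (.node (.node (.leaf ⟨0, 14435, 0, 0⟩)
(.leaf ⟨3, 84, 88, 2⟩))
(.node (.leaf ⟨1, 108, 116, 0⟩)
(.leaf ⟨0, 12963, 0, 0⟩)))
(.node (.node (.leaf ⟨2, 10343, 0, 0⟩)
(.leaf ⟨0, 13762, 0, 0⟩))
(.node (.leaf ⟨1, 108, 102, 0⟩)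
(.leaf ⟨1, 43, 30, 0⟩))))
(.node (.node (.node (.leaf ⟨1, 67, 25, 0⟩)
(.leaf ⟨3, 104, 100, 9⟩))
(.node (.leaf ⟨0, 12595, 0, 0⟩)
(.leaf ⟨0, 14605, 0, 0⟩)))
(.node (.node (.leaf ⟨0, 4887, 0, 0⟩)
(.leaf ⟨0, 954, 0, 0⟩))
(.leaf ⟨0, 6616, 0, 0⟩))))
(.node (.node (.node (.node (.leaf ⟨0, 14407, 0, 0⟩)
(.leaf ⟨0, 15752, 0, 0⟩))
(.node (.leaf ⟨2, 253, 0, 0⟩)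
(.leaf ⟨1, 100, 104, 0⟩)))
(.node (.node (.leaf ⟨0, 12224, 0, 0⟩)
(.leaf ⟨0, 3044, 0, 0⟩))
(.leaf ⟨2, 13635, 0, 0⟩)))
(.node (.node (.node (.leaf ⟨0, 1009, 0, 0⟩)
(.leaf ⟨0, 14393, 0, 0⟩))
(.node (.leaf ⟨0, 15491, 0, 0⟩)
(.leaf ⟨2, 14867, 0, 0⟩)))
(.node (.node (.leaf ⟨0, 6392, 0, 0⟩)
(.leaf ⟨1, 19, 11, 0⟩))
(.leaf ⟨1, 24, 9, 0⟩)))))
(.node (.node (.node (.node (.node (.leaf ⟨1, 24, 72, 0⟩)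
(.leaf ⟨2, 3041, 0, 0⟩))
(.node (.leaf ⟨2, 8255, 0, 0⟩)
(.leaf ⟨0, 9991, 0, 0⟩)))
(.node (.node (.leaf ⟨1, 23, 57, 0⟩)
(.leaf ⟨0, 3320, 0, 0⟩))
(.node (.leaf ⟨0, 15140, 0, 0⟩)
(.leaf ⟨1, 37, 25, 0⟩))))
(.node (.node (.node (.leaf ⟨2, 14979, 0, 0⟩)
(.leaf ⟨1, 104, 112, 0⟩))
(.node (.leaf ⟨1, 20, 66, 0⟩)
(.leaf ⟨0, 3028, 0, 0⟩)))
(.node (.node (.leaf ⟨0, 3508, 0, 0⟩)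
(.leaf ⟨1, 6, 20, 0⟩))
(.leaf ⟨0, 367, 0, 0⟩))))
(.node (.node (.node (.node (.leaf ⟨1, 97, 112, 0⟩)
(.leaf ⟨0, 1658, 0, 0⟩))
(.node (.leaf ⟨1, 64, 16, 0⟩)
(.leaf ⟨2, 8495, 0, 0⟩)))
(.node (.node (.leaf ⟨0, 6022, 0, 0⟩)
(.leaf ⟨1, 52, 98, 0⟩))
(.leaf ⟨0, 1207, 0, 0⟩)))
(.node (.node (.node (.leaf ⟨1, 7, 44, 0⟩)
(.leaf ⟨2, 13075, 0, 0⟩))
(.node (.leaf ⟨1, 18, 5, 0⟩)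
(.leaf ⟨1, 3, 17, 0⟩)))
(.node (.node (.leaf ⟨3, 35, 14, 5⟩)
(.leaf ⟨3, 84, 76, 9⟩))
(.leaf ⟨1, 59, 59, 0⟩))))))
(.node (.node (.node (.node (.node (.node (.leaf ⟨1, 22, 13, 0⟩)
(.leaf ⟨0, 3119, 0, 0⟩))
(.node (.leaf ⟨3, 44, 100, 3⟩)
(.leaf ⟨2, 9803, 0, 0⟩)))
(.node (.node (.leaf ⟨1, 49, 25, 0⟩)
(.leaf ⟨0, 5048, 0, 0⟩))
(.node (.leaf ⟨0, 8682, 0, 0⟩)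
(.leaf ⟨1, 96, 36, 0⟩))))
(.node (.node (.node (.leaf ⟨0, 1900, 0, 0⟩)
(.leaf ⟨1, 43, 58, 0⟩))
(.node (.leaf ⟨0, 5608, 0, 0⟩)
(.leaf ⟨0, 14485, 0, 0⟩)))
(.node (.node (.leaf ⟨0, 13635, 0, 0⟩)
(.leaf ⟨3, 7, 7, 0⟩))
(.leaf ⟨0, 6580, 0, 0⟩))))
(.node (.node (.node (.node (.leaf ⟨0, 8813, 0, 0⟩)
(.leaf ⟨0, 16160, 0, 0⟩))
(.node (.leaf ⟨1, 31, 55, 0⟩)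
(.leaf ⟨2, 12367, 0, 0⟩)))
(.node (.node (.leaf ⟨0, 4600, 0, 0⟩)
(.leaf ⟨3, 7, 26, 8⟩))
(.leaf ⟨0, 10355, 0, 0⟩)))
(.node (.node (.node (.leaf ⟨0, 7106, 0, 0⟩)
(.leaf ⟨0, 14224, 0, 0⟩))
(.node (.leaf ⟨2, 1143, 0, 0⟩)
(.leaf ⟨2, 1119, 0, 0⟩)))
(.node (.node (.leaf ⟨1, 92, 116, 0⟩)
(.leaf ⟨0, 3193, 0, 0⟩))
(.leaf ⟨1, 11, 25, 0⟩)))))
(.node (.node (.node (.node (.node (.leaf ⟨1, 12, 66, 0⟩)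
(.leaf ⟨0, 11307, 0, 0⟩))
(.node (.leaf ⟨3, 67, 11, 6⟩)
(.leaf ⟨0, 8551, 0, 0⟩)))
(.node (.node (.leaf ⟨0, 15371, 0, 0⟩)
(.leaf ⟨0, 12439, 0, 0⟩))
(.leaf ⟨0, 14419, 0, 0⟩)))
(.node (.node (.node (.leaf ⟨0, 1778, 0, 0⟩)
(.leaf ⟨1, 122, 118, 0⟩))
(.node (.leaf ⟨2, 5895, 0, 0⟩)
(.leaf ⟨0, 8427, 0, 0⟩)))
(.node (.node (.leaf ⟨1, 35, 26, 0⟩)
(.leaf ⟨0, 3690, 0, 0⟩))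
(.leaf ⟨0, 3794, 0, 0⟩))))
(.node (.node (.node (.node (.leaf ⟨3, 7, 19, 2⟩)
(.leaf ⟨0, 14740, 0, 0⟩))
(.node (.leaf ⟨1, 84, 100, 0⟩)
(.leaf ⟨0, 7592, 0, 0⟩)))
(.node (.node (.leaf ⟨1, 5, 17, 0⟩)
(.leaf ⟨0, 9247, 0, 0⟩))
(.leaf ⟨1, 58, 114, 0⟩)))
(.node (.node (.node (.leaf ⟨2, 14737, 0, 0⟩)
(.leaf ⟨0, 4346, 0, 0⟩))
(.node (.leaf ⟨2, 8367, 0, 0⟩)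
(.leaf ⟨0, 10631, 0, 0⟩)))
(.node (.node (.leaf ⟨0, 1273, 0, 0⟩)
(.leaf ⟨1, 10, 3, 0⟩))
(.leaf ⟨1, 28, 104, 0⟩)))))))
(.node (.node (.node (.node (.node (.node (.node (.leaf ⟨2, 15621, 0, 0⟩)
(.leaf ⟨1, 80, 40, 0⟩))
(.node (.leaf ⟨3, 35, 11, 5⟩)
(.leaf ⟨2, 12343, 0, 0⟩)))
(.node (.node (.leaf ⟨1, 50, 104, 0⟩)
(.leaf ⟨1, 11, 11, 0⟩))
(.node (.leaf ⟨2, 14915, 0, 0⟩)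
(.leaf ⟨2, 12851, 0, 0⟩))))
(.node (.node (.node (.leaf ⟨2, 251, 0, 0⟩)
(.leaf ⟨0, 7600, 0, 0⟩))
(.node (.leaf ⟨0, 3000, 0, 0⟩)
(.leaf ⟨0, 3704, 0, 0⟩)))
(.node (.node (.leaf ⟨0, 13383, 0, 0⟩)
(.leaf ⟨0, 6981, 0, 0⟩))
(.leaf ⟨0, 7105, 0, 0⟩))))
(.node (.node (.node (.node (.leaf ⟨3, 84, 100, 2⟩)
(.leaf ⟨0, 2032, 0, 0⟩))
(.node (.leaf ⟨0, 12375, 0, 0⟩)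
(.leaf ⟨1, 4, 64, 0⟩)))
(.node (.node (.leaf ⟨0, 14100, 0, 0⟩)
(.leaf ⟨1, 59, 61, 0⟩))
(.leaf ⟨1, 22, 7, 0⟩)))
(.node (.node (.node (.leaf ⟨0, 631, 0, 0⟩)
(.leaf ⟨0, 1653, 0, 0⟩))
(.node (.leaf ⟨0, 1660, 0, 0⟩)
(.leaf ⟨1, 44, 112, 0⟩)))
(.node (.node (.leaf ⟨1, 9, 20, 0⟩)
(.leaf ⟨0, 13713, 0, 0⟩))
(.leaf ⟨3, 104, 76, 9⟩)))))
(.node (.node (.node (.node (.node (.leaf ⟨1, 19, 13, 0⟩)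
(.leaf ⟨1, 110, 110, 0⟩))
(.node (.leaf ⟨0, 13189, 0, 0⟩)
(.leaf ⟨0, 1742, 0, 0⟩)))
(.node (.node (.leaf ⟨1, 56, 104, 0⟩)
(.leaf ⟨0, 4159, 0, 0⟩))
(.node (.leaf ⟨0, 12843, 0, 0⟩)
(.leaf ⟨2, 13335, 0, 0⟩))))
(.node (.node (.node (.leaf ⟨0, 7572, 0, 0⟩)
(.leaf ⟨0, 2297, 0, 0⟩))
(.node (.leaf ⟨0, 2017, 0, 0⟩)
(.leaf ⟨2, 14097, 0, 0⟩)))
(.node (.node (.leaf ⟨0, 14272, 0, 0⟩)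
(.leaf ⟨0, 239, 0, 0⟩))
(.leaf ⟨1, 17, 9, 0⟩))))
(.node (.node (.node (.node (.leaf ⟨3, 11, 11, 3⟩)
(.leaf ⟨1, 12, 68, 0⟩))
(.node (.leaf ⟨0, 12395, 0, 0⟩)
(.leaf ⟨0, 6034, 0, 0⟩)))
(.node (.node (.leaf ⟨3, 97, 104, 0⟩)
(.leaf ⟨0, 8066, 0, 0⟩))
(.leaf ⟨1, 39, 29, 0⟩)))
(.node (.node (.node (.leaf ⟨0, 12627, 0, 0⟩)
(.leaf ⟨1, 84, 112, 0⟩))
(.node (.leaf ⟨0, 2422, 0, 0⟩)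
(.leaf ⟨0, 10419, 0, 0⟩)))
(.node (.node (.leaf ⟨0, 3800, 0, 0⟩)
(.leaf ⟨1, 31, 31, 0⟩))
(.leaf ⟨0, 10347, 0, 0⟩))))))
(.node (.node (.node (.node (.node (.node (.leaf ⟨2, 12573, 0, 0⟩)
(.leaf ⟨0, 15128, 0, 0⟩))
(.node (.leaf ⟨0, 12041, 0, 0⟩)
(.leaf ⟨1, 56, 98, 0⟩)))
(.node (.node (.leaf ⟨0, 1509, 0, 0⟩)
(.leaf ⟨0, 8563, 0, 0⟩))
(.node (.leaf ⟨0, 2143, 0, 0⟩)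
(.leaf ⟨0, 14873, 0, 0⟩))))
(.node (.node (.node (.leaf ⟨1, 60, 106, 0⟩)
(.leaf ⟨0, 3041, 0, 0⟩))
(.node (.leaf ⟨1, 13, 14, 0⟩)
(.leaf ⟨0, 823, 0, 0⟩)))
(.node (.node (.leaf ⟨1, 15, 46, 0⟩)
(.leaf ⟨0, 5211, 0, 0⟩))
(.leaf ⟨0, 6683, 0, 0⟩))))
(.node (.node (.node (.node (.leaf ⟨0, 15877, 0, 0⟩)
(.leaf ⟨0, 3246, 0, 0⟩))
(.node (.leaf ⟨1, 107, 31, 0⟩)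
(.leaf ⟨0, 1521, 0, 0⟩)))
(.node (.node (.leaf ⟨0, 8411, 0, 0⟩)
(.leaf ⟨0, 14365, 0, 0⟩))
(.leaf ⟨0, 15505, 0, 0⟩)))
(.node (.node (.node (.leaf ⟨0, 2235, 0, 0⟩)
(.leaf ⟨0, 15234, 0, 0⟩))
(.node (.leaf ⟨0, 9779, 0, 0⟩)
(.leaf ⟨0, 8096, 0, 0⟩)))
(.node (.node (.leaf ⟨1, 7, 19, 0⟩)
(.leaf ⟨1, 120, 113, 0⟩))
(.leaf ⟨0, 15494, 0, 0⟩)))))
(.node (.node (.node (.node (.node (.leaf ⟨0, 9309, 0, 0⟩)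
(.leaf ⟨0, 7586, 0, 0⟩))
(.node (.leaf ⟨0, 5647, 0, 0⟩)
(.leaf ⟨2, 12431, 0, 0⟩)))
(.node (.node (.leaf ⟨0, 12168, 0, 0⟩)
(.leaf ⟨0, 5592, 0, 0⟩))
(.leaf ⟨0, 15381, 0, 0⟩)))
(.node (.node (.node (.leaf ⟨2, 14661, 0, 0⟩)
(.leaf ⟨2, 13637, 0, 0⟩))
(.node (.leaf ⟨2, 13069, 0, 0⟩)
(.leaf ⟨0, 7060, 0, 0⟩)))
(.node (.node (.leaf ⟨2, 16129, 0, 0⟩)
(.leaf ⟨0, 16132, 0, 0⟩))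
(.leaf ⟨1, 82, 100, 0⟩))))
(.node (.node (.node (.node (.leaf ⟨0, 15889, 0, 0⟩)
(.leaf ⟨1, 112, 88, 0⟩))
(.node (.leaf ⟨0, 758, 0, 0⟩)
(.leaf ⟨0, 13063, 0, 0⟩)))
(.node (.node (.leaf ⟨3, 84, 88, 11⟩)
(.leaf ⟨2, 15137, 0, 0⟩))
(.leaf ⟨2, 14475, 0, 0⟩)))
(.node (.node (.node (.leaf ⟨2, 12443, 0, 0⟩)
(.leaf ⟨0, 13649, 0, 0⟩))
(.node (.leaf ⟨0, 12947, 0, 0⟩)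
(.leaf ⟨1, 16, 1, 0⟩)))
(.node (.node (.leaf ⟨0, 2746, 0, 0⟩)
(.leaf ⟨0, 4222, 0, 0⟩))
(.leaf ⟨0, 1912, 0, 0⟩)))))))))))

end Pool.Agent.Gab7c_h87.CY1
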